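import Mathlib

/-!
A Bellman-function proof of the boundedness of dyadic martingale transforms for `p ≥ 2`.
-/

set_option autoImplicit false

namespace Pool.Agent.P.MP_f77f75_an

open Finset

/-- first constant. -/
def cM (q : ℝ) : ℝ := 4 * q + 2

/-- second constant. -/
def cA (q : ℝ) : ℝ := 2 + 4 * q + (cM q + 1) * (6 * q + 4 * q ^ 2)

lemma key_ineq {q X Y X' Y' a b Z : ℝ} (hq : 0 ≤ q) (hX : 0 ≤ X) (hY : 0 ≤ Y) (hb : 0 ≤ b)
    (hba : b ≤ a) (hX' : X' ^ 2 ≤ 4 * a * X) (hY' : Y' ^ 2 ≤ 4 * b * Y)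
    (hZ : cM q * X + Y ≤ Z) :
    (2 * b - cA q * (2 * a)) * Z ^ 2 + 2 * q * (Y' - cA q * X') * (cM q * X' + Y') * Z +
      q * (Y - cA q * X) * (cM q * (2 * a) + 2 * b) * Z +
      q * (q - 1) * (Y - cA q * X) * (cM q * X' + Y') ^ 2 ≤ 0 := by
  set M := cM q with hM
  have hM' : M = 4 * q + 2 := rfl
  have hM2 : 2 ≤ M := by linarith
  have ha : 0 ≤ a := hb.trans hba
  have hMX : 0 ≤ M * X := by positivity
  have hYZ : Y ≤ Z := by linarith
  have hMXZ : M * X ≤ Z := by linarith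
  have hZ0 : 0 ≤ Z := by linarith
  set Z' := M * X' + Y' with hZ'
  set Z'' := M * (2 * a) + 2 * b with hZ''
  have hZ''0 : 0 ≤ Z'' := by positivity
  have hcross : X' * Y' ≤ 2 * (a * Y + b * X) := by
    have h1 : (X' * Y') ^ 2 ≤ (2 * (a * Y + b * X)) ^ 2 := by
      have h2 : X' ^ 2 * Y' ^ 2 ≤ (4 * a * X) * (4 * b * Y) :=
        mul_le_mul hX' hY' (sq_nonneg _) (by positivity)
      nlinarith [sq_nonneg (a * Y - b * X)]
    exact (abs_le_of_sq_le_sq' h1 (by positivity)).2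
  have hdisc : Z' ^ 2 ≤ 2 * Z'' * Z := by
    have h1 : Z' ^ 2 ≤ 2 * Z'' * (M * X + Y) := by
      have h2 : M ^ 2 * X' ^ 2 ≤ M ^ 2 * (4 * a * X) := mul_le_mul_of_nonneg_left hX' (sq_nonneg _)
      have h3 : M * (X' * Y') ≤ M * (2 * (a * Y + b * X)) :=
        mul_le_mul_of_nonneg_left hcross (by linarith)
      rw [hZ', hZ'']
      nlinarith
    exact h1.trans (mul_le_mul_of_nonneg_left hZ (by positivity))
  set W := (M + 1) * a with hW
  have hW0 : 0 ≤ W := by positivity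
  have hZW : Z'' ≤ 2 * W := by rw [hZ'', hW]; linarith
  have hZ'W : Z' ^ 2 ≤ 4 * W * Z := by
    have := mul_le_mul_of_nonneg_right hZW hZ0
    linarith
  have hY'Z : Y' ^ 2 ≤ 4 * a * Z := by
    have : b * Y ≤ a * Z := mul_le_mul hba hYZ hY ha
    linarith
  -- upper bound for the `Y` part
  have hGY : 2 * b * Z ^ 2 + 2 * q * Y' * Z' * Z + q * Y * Z'' * Z + q * (q - 1) * Y * Z' ^ 2 ≤
      cA q * (a * Z ^ 2) := by
    have t1 : 2 * b * Z ^ 2 ≤ 2 * a * Z ^ 2 := by gcongr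
    have t2 : 2 * q * Y' * Z' * Z ≤ q * (4 * a * Z + 4 * W * Z) * Z := by
      have : 2 * Y' * Z' ≤ 4 * a * Z + 4 * W * Z := by nlinarith [sq_nonneg (Y' - Z')]
      have := mul_le_mul_of_nonneg_right (mul_le_mul_of_nonneg_left this hq) hZ0
      linarith
    have t3 : q * Y * Z'' * Z ≤ q * Z * (2 * W) * Z := by gcongr
    have t4 : q * (q - 1) * Y * Z' ^ 2 ≤ q ^ 2 * Z * (4 * W * Z) := by
      have h1 : q * (q - 1) * Y * Z' ^ 2 ≤ q ^ 2 * Y * Z' ^ 2 := by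
        have : 0 ≤ q * Y * Z' ^ 2 := by positivity
        nlinarith
      exact h1.trans (by gcongr)
    have : cA q * (a * Z ^ 2) = 2 * a * Z ^ 2 + q * (4 * a * Z + 4 * W * Z) * Z +
        q * Z * (2 * W) * Z + q ^ 2 * Z * (4 * W * Z) := by
      unfold cA; rw [← hM, hW]; ring
    linarith
  -- lower bound for the `X` part
  have hGX : a * Z ^ 2 ≤
      2 * a * Z ^ 2 + 2 * q * X' * Z' * Z + q * X * Z'' * Z + q * (q - 1) * X * Z' ^ 2 := by
    have t1 : -(1 / 2 * (a * Z ^ 2)) ≤ 2 * q * X' * Z' * Z := by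
      have h1 : -(Y' ^ 2) ≤ 2 * M * (2 * X' * Z') := by
        rw [hZ']; nlinarith [sq_nonneg (2 * M * X' + Y')]
      have h2 : -(4 * a * Z) ≤ 2 * M * (2 * X' * Z') := by linarith
      have h3 : -(q * (4 * a * Z)) ≤ 2 * M * (q * (2 * X' * Z')) := by
        have := mul_le_mul_of_nonneg_left h2 hq
        linarith
      have h4 : q * (4 * a * Z) ≤ 2 * M * (1 / 2 * (a * Z)) := by
        have : 0 ≤ a * Z := by positivity
        rw [hM']; nlinarith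
      have h5 : 2 * M * (-(1 / 2 * (a * Z))) ≤ 2 * M * (q * (2 * X' * Z')) := by linarith
      have h6 : -(1 / 2 * (a * Z)) ≤ q * (2 * X' * Z') :=
        le_of_mul_le_mul_left h5 (by linarith)
      have := mul_le_mul_of_nonneg_right h6 hZ0
      linarith
    have t2 : -(1 / 2 * (a * Z ^ 2)) ≤ q * X * Z'' * Z + q * (q - 1) * X * Z' ^ 2 := by
      have h0 : 0 ≤ a * Z ^ 2 := by positivity
      rcases le_or_gt 1 q with h | h
      · have : 0 ≤ q * X * Z'' * Z := by positivity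
        have : 0 ≤ q * (q - 1) * X * Z' ^ 2 := by
          have : 0 ≤ q - 1 := by linarith
          positivity
        linarith
      · have h1 : q * (1 - q) * X * Z' ^ 2 ≤ q * (1 - q) * X * (2 * Z'' * Z) := by
          have : 0 ≤ 1 - q := by linarith
          gcongr
        have h2 : X * Z'' * Z ≤ 4 * (a * Z ^ 2) := by
          have h3 : X * Z'' ≤ X * (2 * W) := by gcongr
          have h4 : X * (2 * W) ≤ 4 * a * (M * X) := by
            rw [hW]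
            have : 0 ≤ X * a := by positivity
            nlinarith
          have h5 : 4 * a * (M * X) ≤ 4 * a * Z := by gcongr
          have := mul_le_mul_of_nonneg_right (h3.trans (h4.trans h5)) hZ0
          linarith
        have h6 : 0 ≤ X * Z'' * Z := by positivity
        have h7 : -(1 / 8) ≤ q * (2 * q - 1) := by
          have := sq_nonneg (q - 1 / 4)
          linarith
        have h8 := mul_le_mul_of_nonneg_right h7 h6
        linarith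
    linarith
  have hA0 : 0 ≤ cA q := by unfold cA; rw [← hM]; positivity
  have := mul_le_mul_of_nonneg_left hGX hA0
  linarith

lemma quad_nonneg {X0 X1 a : ℝ} (hX0 : 0 ≤ X0) (ha : 0 ≤ a) (h : X1 ^ 2 ≤ X0 * a) (t : ℝ) :
    0 ≤ X0 + 2 * X1 * t + a * t ^ 2 := by
  rcases ha.eq_or_lt with rfl | ha'
  · have : X1 = 0 := by nlinarith [sq_nonneg X1]
    simp [this, hX0]
  · have : 0 ≤ a * (X0 + 2 * X1 * t + a * t ^ 2) := by nlinarith [sq_nonneg (X1 + a * t)]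
    exact nonneg_of_mul_nonneg_right' this ha'
where
  nonneg_of_mul_nonneg_right' {a b : ℝ} (h : 0 ≤ a * b) (ha : 0 < a) : 0 ≤ b := by
    by_contra hb
    push Not at hb
    nlinarith

lemma midpoint_eta {q X0 X1 a Y0 Y1 b η : ℝ} (hq : 0 ≤ q) (hX0 : 0 ≤ X0) (hY0 : 0 ≤ Y0)
    (hb : 0 ≤ b) (hba : b ≤ a) (hX : X1 ^ 2 ≤ X0 * a) (hY : Y1 ^ 2 ≤ Y0 * b) (hη : 0 < η) :
    ((Y0 + 2 * Y1 + b) - cA q * (X0 + 2 * X1 + a)) *
        (η + cM q * (X0 + 2 * X1 + a) + (Y0 + 2 * Y1 + b)) ^ q +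
      ((Y0 - 2 * Y1 + b) - cA q * (X0 - 2 * X1 + a)) *
        (η + cM q * (X0 - 2 * X1 + a) + (Y0 - 2 * Y1 + b)) ^ q ≤
      2 * ((Y0 - cA q * X0) * (η + cM q * X0 + Y0) ^ q) := by
  have ha : 0 ≤ a := hb.trans hba
  have hM : 0 ≤ cM q := by unfold cM; positivity
  let X : ℝ → ℝ := fun t => X0 + 2 * X1 * t + a * t ^ 2
  let Y : ℝ → ℝ := fun t => Y0 + 2 * Y1 * t + b * t ^ 2
  let X' : ℝ → ℝ := fun t => 2 * X1 + 2 * a * t
  let Y' : ℝ → ℝ := fun t => 2 * Y1 + 2 * b * t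
  let Z : ℝ → ℝ := fun t => η + cM q * X t + Y t
  have hXn : ∀ t, 0 ≤ X t := quad_nonneg hX0 ha hX
  have hYn : ∀ t, 0 ≤ Y t := quad_nonneg hY0 hb hY
  have hZp : ∀ t, 0 < Z t := fun t => by
    have := hXn t
    have := hYn t
    positivity
  have dX : ∀ t, HasDerivAt X (X' t) t := fun t => by
    have := (((hasDerivAt_id t).const_mul (2 * X1)).const_add X0).add
      ((hasDerivAt_pow 2 t).const_mul a)
    refine HasDerivAt.congr_deriv this ?_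
    simp [X']; ring
  have dY : ∀ t, HasDerivAt Y (Y' t) t := fun t => by
    have := (((hasDerivAt_id t).const_mul (2 * Y1)).const_add Y0).add
      ((hasDerivAt_pow 2 t).const_mul b)
    refine HasDerivAt.congr_deriv this ?_
    simp [Y']; ring
  have dX' : ∀ t, HasDerivAt X' (2 * a) t := fun t => by
    exact HasDerivAt.congr_deriv (((hasDerivAt_id t).const_mul (2 * a)).const_add (2 * X1))
      (mul_one _)
  have dY' : ∀ t, HasDerivAt Y' (2 * b) t := fun t => by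
    exact HasDerivAt.congr_deriv (((hasDerivAt_id t).const_mul (2 * b)).const_add (2 * Y1))
      (mul_one _)
  have dZ : ∀ t, HasDerivAt Z (cM q * X' t + Y' t) t := fun t =>
    (((dX t).const_mul (cM q)).const_add η).add (dY t)
  let u : ℝ → ℝ := fun t => (Y t - cA q * X t) * Z t ^ q
  let u' : ℝ → ℝ := fun t => (Y' t - cA q * X' t) * Z t ^ q +
    (Y t - cA q * X t) * ((cM q * X' t + Y' t) * q * Z t ^ (q - 1))
  have du : ∀ t, HasDerivAt u (u' t) t := fun t =>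
    ((dY t).sub ((dX t).const_mul (cA q))).mul ((dZ t).rpow_const (Or.inl (hZp t).ne'))
  have du' : ∀ t, ∃ d, HasDerivAt u' d t ∧ d ≤ 0 := fun t => by
    have h1 := ((dY' t).sub ((dX' t).const_mul (cA q))).mul
      ((dZ t).rpow_const (p := q) (Or.inl (hZp t).ne'))
    have h2 := ((dY t).sub ((dX t).const_mul (cA q))).mul
      (((((dX' t).const_mul (cM q)).add (dY' t)).mul_const q).mul
        ((dZ t).rpow_const (p := q - 1) (Or.inl (hZp t).ne')))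
    refine ⟨_, h1.add h2, ?_⟩
    have hk := key_ineq (q := q) (X := X t) (Y := Y t) (X' := X' t) (Y' := Y' t) (a := a) (b := b)
      (Z := Z t) hq (hXn t) (hYn t) hb hba (by simp only [X', X]; nlinarith)
      (by simp only [Y', Y]; nlinarith) (by simp only [Z]; linarith)
    have e1 : Z t ^ (q - 1) = Z t ^ (q - 1 - 1) * Z t := by
      rw [← Real.rpow_add_one (hZp t).ne']; ring_nf
    have e2 : Z t ^ q = Z t ^ (q - 1 - 1) * Z t ^ 2 := by
      rw [← Real.rpow_two, ← Real.rpow_add (hZp t)]; ring_nf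
    have hp : 0 ≤ Z t ^ (q - 1 - 1) := Real.rpow_nonneg (hZp t).le _
    have := mul_nonpos_of_nonneg_of_nonpos hp hk
    simp only [Pi.sub_apply, Pi.add_apply, Pi.mul_apply]
    rw [e2, e1]
    linarith
  have hderiv : deriv u = u' := funext fun t => (du t).deriv
  have hanti : Antitone u' := antitone_of_deriv_nonpos
    (fun t => (du' t).choose_spec.1.differentiableAt)
    (fun t => by rw [(du' t).choose_spec.1.deriv]; exact (du' t).choose_spec.2)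
  have hconc : ConcaveOn ℝ Set.univ u :=
    Antitone.concaveOn_univ_of_deriv (fun t => (du t).differentiableAt) (hderiv ▸ hanti)
  have := hconc.2 (Set.mem_univ 1) (Set.mem_univ (-1))
    (show (0 : ℝ) ≤ 1 / 2 by norm_num) (show (0 : ℝ) ≤ 1 / 2 by norm_num) (by norm_num)
  simp only [u, Z, X, Y, smul_eq_mul] at this
  ring_nf at this ⊢
  linarith

/-- the Bellman function in terms of the squared moduli. -/
noncomputable def bU (q X Y : ℝ) : ℝ := (Y - cA q * X) * (cM q * X + Y) ^ q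

lemma midpoint_zero {q X0 X1 a Y0 Y1 b : ℝ} (hq : 0 ≤ q) (hX0 : 0 ≤ X0) (hY0 : 0 ≤ Y0)
    (hb : 0 ≤ b) (hba : b ≤ a) (hX : X1 ^ 2 ≤ X0 * a) (hY : Y1 ^ 2 ≤ Y0 * b) :
    bU q (X0 + 2 * X1 + a) (Y0 + 2 * Y1 + b) + bU q (X0 - 2 * X1 + a) (Y0 - 2 * Y1 + b) ≤
      2 * bU q X0 Y0 := by
  have hc : ∀ P c d : ℝ, Filter.Tendsto (fun η : ℝ => P * (η + c + d) ^ q) (nhdsWithin 0 (Set.Ioi 0))
      (nhds (P * (c + d) ^ q)) := by
    intro P c d
    have h1 : Continuous (fun η : ℝ => P * (η + c + d) ^ q) :=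
      continuous_const.mul (((continuous_id.add continuous_const).add continuous_const).rpow_const
        (fun _ => Or.inr hq))
    have := (h1.tendsto 0).mono_left (nhdsWithin_le_nhds (s := Set.Ioi 0))
    simpa using this
  unfold bU
  refine le_of_tendsto_of_tendsto ((hc _ _ _).add (hc _ _ _)) ((hc _ _ _).const_mul 2) ?_
  filter_upwards [self_mem_nhdsWithin] with η hη
  exact midpoint_eta hq hX0 hY0 hb hba hX hY hη

variable {𝕜 : Type*} [RCLike 𝕜]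

lemma exists_cross (x h : 𝕜) : ∃ X1 : ℝ, X1 ^ 2 ≤ ‖x‖ ^ 2 * ‖h‖ ^ 2 ∧
    ‖x + h‖ ^ 2 = ‖x‖ ^ 2 + 2 * X1 + ‖h‖ ^ 2 ∧ ‖x - h‖ ^ 2 = ‖x‖ ^ 2 - 2 * X1 + ‖h‖ ^ 2 := by
  have hp := parallelogram_law_with_norm 𝕜 x h
  refine ⟨(‖x + h‖ ^ 2 - ‖x - h‖ ^ 2) / 4, ?_, by nlinarith, by nlinarith⟩
  have h1 : ‖x + h‖ ^ 2 ≤ (‖x‖ + ‖h‖) ^ 2 := by gcongr; exact norm_add_le _ _
  have h2 : ‖x - h‖ ^ 2 ≤ (‖x‖ + ‖h‖) ^ 2 := by gcongr; exact norm_sub_le _ _
  rw [← mul_pow]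
  apply sq_le_sq'
  · nlinarith
  · nlinarith

lemma midpoint_norm {q : ℝ} (hq : 0 ≤ q) (x y h k : 𝕜) (hk : ‖k‖ ≤ ‖h‖) :
    bU q (‖x + h‖ ^ 2) (‖y + k‖ ^ 2) + bU q (‖x - h‖ ^ 2) (‖y - k‖ ^ 2) ≤
      2 * bU q (‖x‖ ^ 2) (‖y‖ ^ 2) := by
  obtain ⟨X1, h1, h2, h3⟩ := exists_cross x h
  obtain ⟨Y1, h4, h5, h6⟩ := exists_cross y k
  rw [h2, h3, h5, h6]
  exact midpoint_zero hq (sq_nonneg _) (sq_nonneg _) (sq_nonneg _) (by gcongr) h1 h4

lemma cA_ge {q : ℝ} (hq : 0 ≤ q) : 2 ≤ cA q := by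
  unfold cA cM
  have : 0 ≤ (4 * q + 2 + 1) * (6 * q + 4 * q ^ 2) := by positivity
  linarith

lemma bU_nonpos {q X Y : ℝ} (hq : 0 ≤ q) (hY : 0 ≤ Y) (h : Y ≤ X) : bU q X Y ≤ 0 := by
  unfold bU
  have := cA_ge hq
  have hX : 0 ≤ X := hY.trans h
  have hM : 0 ≤ cM q := by unfold cM; positivity
  exact mul_nonpos_of_nonpos_of_nonneg (by nlinarith) (Real.rpow_nonneg (by positivity) _)

/-- third constant. -/
noncomputable def cC (q : ℝ) : ℝ :=
  (2 * cA q) ^ (q + 1) + 2 * cA q * (cM q + 2 * cA q) ^ q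

lemma cC_pos {q : ℝ} (hq : 0 ≤ q) : 0 < cC q := by
  have := cA_ge hq
  have hM : 0 ≤ cM q := by unfold cM; positivity
  unfold cC
  positivity

lemma bU_major {q X Y : ℝ} (hq : 0 ≤ q) (hX : 0 ≤ X) (hY : 0 ≤ Y) :
    Y ^ (q + 1) ≤ 2 * bU q X Y + cC q * X ^ (q + 1) := by
  have hA := cA_ge hq
  have hM : 0 ≤ cM q := by unfold cM; positivity
  have hC := cC_pos hq
  have hXq : 0 ≤ X ^ (q + 1) := Real.rpow_nonneg hX _
  have hq1 : q + 1 ≠ 0 := by linarith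
  unfold bU
  rcases le_or_gt (2 * cA q * X) Y with h | h
  · have h1 : Y ^ q ≤ (cM q * X + Y) ^ q :=
      Real.rpow_le_rpow hY (by nlinarith [mul_nonneg hM hX]) hq
    have h2 : Y ^ (q + 1) = Y ^ q * Y := Real.rpow_add_one' hY hq1
    have h3 : Y ^ q * Y ≤ (cM q * X + Y) ^ q * (2 * (Y - cA q * X)) :=
      mul_le_mul h1 (by linarith) hY (Real.rpow_nonneg (by positivity) _)
    have := mul_nonneg hC.le hXq
    nlinarith
  · have h1 : Y ^ (q + 1) ≤ (2 * cA q) ^ (q + 1) * X ^ (q + 1) := by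
      rw [← Real.mul_rpow (by positivity) hX]
      exact Real.rpow_le_rpow hY h.le (by linarith)
    have h2 : (cM q * X + Y) ^ q ≤ (cM q + 2 * cA q) ^ q * X ^ q := by
      rw [← Real.mul_rpow (by positivity) hX]
      exact Real.rpow_le_rpow (by positivity) (by nlinarith) hq
    have h3 : X ^ (q + 1) = X ^ q * X := Real.rpow_add_one' hX hq1
    have h4 : 0 ≤ (cM q * X + Y) ^ q := Real.rpow_nonneg (by positivity) _
    have h5 : cA q * X * (cM q * X + Y) ^ q ≤ cA q * X * ((cM q + 2 * cA q) ^ q * X ^ q) := by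
      gcongr
    have h6 := mul_nonneg hY h4
    unfold cC
    rw [h3] at h1 ⊢
    nlinarith

lemma sum_range_two_mul {M : Type*} [AddCommMonoid M] (f : ℕ → M) (m : ℕ) :
    ∑ k ∈ range (2 * m), f k = ∑ k ∈ range m, (f (2 * k) + f (2 * k + 1)) := by
  induction m with
  | zero => simp
  | succ m ih =>
    rw [show 2 * (m + 1) = 2 * m + 1 + 1 by ring, Finset.sum_range_succ, Finset.sum_range_succ, ih,
      Finset.sum_range_succ, add_assoc]

lemma sum_range_two_pow_succ {M : Type*} [AddCommMonoid M] (f : ℕ → M) (n : ℕ) :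
    ∑ k ∈ range (2 ^ (n + 1)), f k = ∑ k ∈ range (2 ^ n), (f (2 * k) + f (2 * k + 1)) := by
  rw [pow_succ', sum_range_two_mul]

/-- half difference of a dyadic array. -/
noncomputable def hd (F : ℕ → ℕ → 𝕜) (n k : ℕ) : 𝕜 := (F (n + 1) (2 * k) - F (n + 1) (2 * k + 1)) / 2

/-- the midpoint property. -/
def Mart (F : ℕ → ℕ → 𝕜) : Prop :=
  ∀ n k, F n k = (F (n + 1) (2 * k) + F (n + 1) (2 * k + 1)) / 2

lemma Mart.left {F : ℕ → ℕ → 𝕜} (h : Mart F) (n k : ℕ) : F (n + 1) (2 * k) = F n k + hd F n k := by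
  rw [h n k, hd]; ring

lemma Mart.right {F : ℕ → ℕ → 𝕜} (h : Mart F) (n k : ℕ) :
    F (n + 1) (2 * k + 1) = F n k - hd F n k := by
  rw [h n k, hd]; ring

/-- the transformed array. -/
noncomputable def transf (F : ℕ → ℕ → 𝕜) (σ0 : 𝕜) (σ : ℕ → ℕ → 𝕜) : ℕ → ℕ → 𝕜
  | 0, _ => σ0 * F 0 0
  | n + 1, k => if k % 2 = 0 then transf F σ0 σ n (k / 2) + σ n (k / 2) * hd F n (k / 2)
      else transf F σ0 σ n (k / 2) - σ n (k / 2) * hd F n (k / 2)

lemma transf_left (F : ℕ → ℕ → 𝕜) (σ0 : 𝕜) (σ : ℕ → ℕ → 𝕜) (n k : ℕ) :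
    transf F σ0 σ (n + 1) (2 * k) = transf F σ0 σ n k + σ n k * hd F n k := by
  have h1 : 2 * k % 2 = 0 := by omega
  have h2 : 2 * k / 2 = k := by omega
  simp only [transf, h1, h2, if_true]

lemma transf_right (F : ℕ → ℕ → 𝕜) (σ0 : 𝕜) (σ : ℕ → ℕ → 𝕜) (n k : ℕ) :
    transf F σ0 σ (n + 1) (2 * k + 1) = transf F σ0 σ n k - σ n k * hd F n k := by
  have h1 : ¬ (2 * k + 1) % 2 = 0 := by omega
  have h2 : (2 * k + 1) / 2 = k := by omega
  simp only [transf, h1, h2, if_false]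

lemma bellman_sum {q : ℝ} (hq : 0 ≤ q) {F : ℕ → ℕ → 𝕜} (hF : Mart F) {σ0 : 𝕜} {σ : ℕ → ℕ → 𝕜}
    (h0 : ‖σ0‖ ≤ 1) (hσ : ∀ n k, ‖σ n k‖ ≤ 1) (N : ℕ) :
    ∑ k ∈ range (2 ^ N), bU q (‖F N k‖ ^ 2) (‖transf F σ0 σ N k‖ ^ 2) ≤ 0 := by
  induction N with
  | zero =>
    simp only [pow_zero, range_one, sum_singleton, transf]
    refine bU_nonpos hq (sq_nonneg _) ?_
    have : ‖σ0 * F 0 0‖ ≤ ‖F 0 0‖ := by
      rw [norm_mul]; exact mul_le_of_le_one_left (norm_nonneg _) h0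
    gcongr
  | succ N ih =>
    rw [sum_range_two_pow_succ]
    have : ∑ k ∈ range (2 ^ N), (bU q (‖F (N + 1) (2 * k)‖ ^ 2) (‖transf F σ0 σ (N + 1) (2 * k)‖ ^ 2) +
        bU q (‖F (N + 1) (2 * k + 1)‖ ^ 2) (‖transf F σ0 σ (N + 1) (2 * k + 1)‖ ^ 2)) ≤
        ∑ k ∈ range (2 ^ N), 2 * bU q (‖F N k‖ ^ 2) (‖transf F σ0 σ N k‖ ^ 2) := by
      refine Finset.sum_le_sum fun k _ => ?_
      rw [hF.left, hF.right, transf_left, transf_right]
      refine midpoint_norm hq _ _ _ _ ?_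
      rw [norm_mul]; exact mul_le_of_le_one_left (norm_nonneg _) (hσ _ _)
    rw [← Finset.mul_sum] at this
    linarith

lemma transf_bound {p : ℝ} (hp : 2 ≤ p) {F : ℕ → ℕ → 𝕜} (hF : Mart F) {σ0 : 𝕜} {σ : ℕ → ℕ → 𝕜}
    (h0 : ‖σ0‖ ≤ 1) (hσ : ∀ n k, ‖σ n k‖ ≤ 1) (N : ℕ) :
    ∑ k ∈ range (2 ^ N), ‖transf F σ0 σ N k‖ ^ p ≤
      cC (p / 2 - 1) * ∑ k ∈ range (2 ^ N), ‖F N k‖ ^ p := by
  have hq : 0 ≤ p / 2 - 1 := by linarith
  have e : ∀ z : 𝕜, ‖z‖ ^ p = (‖z‖ ^ 2) ^ (p / 2 - 1 + 1) := fun z => by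
    rw [← Real.rpow_two, ← Real.rpow_mul (norm_nonneg _)]
    congr 1; ring
  have h1 := bellman_sum hq hF h0 hσ N
  have h2 : ∑ k ∈ range (2 ^ N), ‖transf F σ0 σ N k‖ ^ p ≤ ∑ k ∈ range (2 ^ N),
      (2 * bU (p / 2 - 1) (‖F N k‖ ^ 2) (‖transf F σ0 σ N k‖ ^ 2) + cC (p / 2 - 1) * ‖F N k‖ ^ p) := by
    refine Finset.sum_le_sum fun k _ => ?_
    rw [e, e]
    exact bU_major hq (sq_nonneg _) (sq_nonneg _)
  rw [Finset.sum_add_distrib, ← Finset.mul_sum, ← Finset.mul_sum] at h2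
  linarith

lemma transf_pair (F : ℕ → ℕ → 𝕜) {Y : ℕ → ℕ → 𝕜} (hY : Mart Y) (σ0 : 𝕜) (σ : ℕ → ℕ → 𝕜) (N : ℕ) :
    (∑ k ∈ range (2 ^ N), transf F σ0 σ N k * Y N k) / 2 ^ N =
      σ0 * F 0 0 * Y 0 0 + ∑ n ∈ range N, ∑ k ∈ range (2 ^ n), σ n k * hd F n k * hd Y n k / 2 ^ n := by
  induction N with
  | zero => simp [transf]
  | succ N ih =>
    rw [Finset.sum_range_succ, ← add_assoc, ← ih, sum_range_two_pow_succ, Finset.sum_div,
      Finset.sum_div, ← Finset.sum_add_distrib]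
    refine Finset.sum_congr rfl fun k _ => ?_
    rw [transf_left, transf_right, hY.left, hY.right]
    field_simp
    ring

lemma exists_sign (z : 𝕜) : ∃ σ : 𝕜, ‖σ‖ ≤ 1 ∧ σ * z = (‖z‖ : 𝕜) := by
  by_cases hz : z = 0
  · exact ⟨0, by simp, by simp [hz]⟩
  · refine ⟨(‖z‖ : 𝕜) / z, ?_, by field_simp⟩
    have : ‖z‖ ≠ 0 := norm_ne_zero_iff.2 hz
    simp [this]

/-- discrete bilinear form of the unconditionality, `p ≥ 2`. -/
theorem discrete_paley {p p' : ℝ} (hpp : p.HolderConjugate p') (hp : 2 ≤ p) {F Y : ℕ → ℕ → 𝕜}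
    (hF : Mart F) (hY : Mart Y) (N : ℕ) {a b : ℝ} (ha : 0 ≤ a) (hb : 0 ≤ b)
    (hFa : ∑ k ∈ range (2 ^ N), ‖F N k‖ ^ p ≤ 2 ^ N * a ^ p)
    (hYb : ∑ k ∈ range (2 ^ N), ‖Y N k‖ ^ p' ≤ 2 ^ N * b ^ p') :
    ‖F 0 0‖ * ‖Y 0 0‖ + ∑ n ∈ range N, ∑ k ∈ range (2 ^ n), ‖hd F n k‖ * ‖hd Y n k‖ / 2 ^ n ≤
      cC (p / 2 - 1) ^ (1 / p) * a * b := by
  obtain ⟨σ0, h0, h0'⟩ := exists_sign (F 0 0 * Y 0 0)
  choose σ hσ hσ' using fun n k => exists_sign (hd F n k * hd Y n k)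
  have hC := cC_pos (q := p / 2 - 1) (by linarith)
  have h1 := transf_pair F hY σ0 σ N
  have h2 : (∑ k ∈ range (2 ^ N), transf F σ0 σ N k * Y N k) / 2 ^ N =
      ((‖F 0 0‖ * ‖Y 0 0‖ + ∑ n ∈ range N, ∑ k ∈ range (2 ^ n),
        ‖hd F n k‖ * ‖hd Y n k‖ / 2 ^ n : ℝ) : 𝕜) := by
    rw [h1, mul_assoc, h0']
    push_cast
    congr 1
    · rw [norm_mul]; push_cast; rfl
    · refine Finset.sum_congr rfl fun n _ => Finset.sum_congr rfl fun k _ => ?_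
      rw [mul_assoc, hσ', norm_mul]; push_cast; rfl
  have h3 := congrArg norm h2
  rw [RCLike.norm_ofReal, norm_div] at h3
  refine (le_abs_self _).trans ?_
  rw [← h3]
  have h4 : ‖∑ k ∈ range (2 ^ N), transf F σ0 σ N k * Y N k‖ ≤
      ∑ k ∈ range (2 ^ N), ‖transf F σ0 σ N k‖ * ‖Y N k‖ :=
    (norm_sum_le _ _).trans (le_of_eq (Finset.sum_congr rfl fun k _ => norm_mul _ _))
  have h5 := Real.inner_le_Lp_mul_Lq_of_nonneg (range (2 ^ N)) hpp
    (f := fun k => ‖transf F σ0 σ N k‖) (g := fun k => ‖Y N k‖)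
    (fun _ _ => norm_nonneg _) (fun _ _ => norm_nonneg _)
  have hp0 := hpp.pos
  have hp0' := hpp.symm.pos
  have h6 : (∑ k ∈ range (2 ^ N), ‖transf F σ0 σ N k‖ ^ p) ^ (1 / p) ≤
      cC (p / 2 - 1) ^ (1 / p) * ((2 ^ N : ℝ) ^ (1 / p) * a) := by
    have := (transf_bound hp hF h0 hσ N).trans (mul_le_mul_of_nonneg_left hFa hC.le)
    refine (Real.rpow_le_rpow (by positivity) this (by positivity)).trans (le_of_eq ?_)
    rw [Real.mul_rpow hC.le (by positivity), Real.mul_rpow (by positivity) (by positivity),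
      ← Real.rpow_mul ha, mul_one_div_cancel hp0.ne', Real.rpow_one]
  have h7 : (∑ k ∈ range (2 ^ N), ‖Y N k‖ ^ p') ^ (1 / p') ≤ (2 ^ N : ℝ) ^ (1 / p') * b := by
    refine (Real.rpow_le_rpow (by positivity) hYb (by positivity)).trans (le_of_eq ?_)
    rw [Real.mul_rpow (by positivity) (by positivity),
      ← Real.rpow_mul hb, mul_one_div_cancel hp0'.ne', Real.rpow_one]
  have h8 : (2 ^ N : ℝ) ^ (1 / p) * (2 ^ N : ℝ) ^ (1 / p') = 2 ^ N := by
    rw [← Real.rpow_add (by positivity), one_div, one_div, hpp.inv_add_inv_eq_one, Real.rpow_one]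
  have h9 : ‖(2 : 𝕜) ^ N‖ = 2 ^ N := by simp
  rw [h9, div_le_iff₀ (by positivity)]
  calc _ ≤ _ := h4
    _ ≤ _ := h5
    _ ≤ cC (p / 2 - 1) ^ (1 / p) * ((2 ^ N : ℝ) ^ (1 / p) * a) * ((2 ^ N : ℝ) ^ (1 / p') * b) := by
      gcongr
    _ = cC (p / 2 - 1) ^ (1 / p) * a * b * ((2 ^ N : ℝ) ^ (1 / p) * (2 ^ N : ℝ) ^ (1 / p')) := by ring
    _ = _ := by rw [h8]

end Pool.Agent.P.MP_f77f75_an
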