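import Mathlib

/-!
Definitions for the statement: `L_q[0,1]`, the Haar system, the pairing, the dual norm and
isometric greediness.
-/

set_option autoImplicit false

namespace Pool.Agent.P.MP_f77f75_an

open MeasureTheory

variable (𝕜 : Type) [RCLike 𝕜]

/-- The space `L_q[0,1]` of `𝕜`-valued functions, Lebesgue measure. -/
abbrev Lq (q : ℝ) : Type := Lp 𝕜 (ENNReal.ofReal q) (volume.restrict (Set.Icc (0 : ℝ) 1))

/-- The indicator function of `[a, b)` as an element of `L_q[0,1]`. -/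
noncomputable def ind (q a b : ℝ) : Lq 𝕜 q :=
  indicatorConstLp (ENNReal.ofReal q) (measurableSet_Ico (a := a) (b := b)) (measure_ne_top _ _) 1

/-- The `L_q`-normalised Haar system: `none` gives the constant `1`, and `some ⟨n, k⟩` gives
`|I|^(-1/q) h_I` for the dyadic interval `I = [k/2^n, (k+1)/2^n)`. -/
noncomputable def haar (q : ℝ) : Option ((n : ℕ) × Fin (2 ^ n)) → Lq 𝕜 q
  | none => ind 𝕜 q 0 1
  | some ⟨n, k⟩ => (((1 / 2 ^ n : ℝ) ^ (-1 / q) : ℝ) : 𝕜) •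
      (ind 𝕜 q ((k : ℕ) / 2 ^ n) (((k : ℕ) + 1 / 2) / 2 ^ n) -
        ind 𝕜 q (((k : ℕ) + 1 / 2) / 2 ^ n) (((k : ℕ) + 1) / 2 ^ n))

variable {𝕜}

/-- The pairing `⟨f, g⟩ = ∫₀¹ f g`. -/
noncomputable def pairing {p q : ℝ} (f : Lq 𝕜 p) (g : Lq 𝕜 q) : 𝕜 :=
  ∫ t in Set.Icc (0 : ℝ) 1, f t * g t

/-- `N` is a norm on `L_p[0,1]` equivalent to the usual one. -/
def IsRenorming {p : ℝ} (N : Lq 𝕜 p → ℝ) : Prop :=
  (∀ f g, N (f + g) ≤ N f + N g) ∧ (∀ (a : 𝕜) f, N (a • f) = ‖a‖ * N f) ∧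
    ∃ c C : ℝ, 0 < c ∧ ∀ f, c * ‖f‖ ≤ N f ∧ N f ≤ C * ‖f‖

/-- The dual norm `sup {|⟨f, g⟩| : N f ≤ 1}`. -/
noncomputable def dualNorm {p q : ℝ} (N : Lq 𝕜 p → ℝ) (g : Lq 𝕜 q) : ℝ :=
  sSup {r : ℝ | ∃ f : Lq 𝕜 p, N f ≤ 1 ∧ r = ‖pairing f g‖}

/-- The system `x` with coordinate functionals `c` is isometrically greedy relative to `N`: for every
`f`, every greedy set `A` of `f` and every combination of at most `|A|` members of the system, the
greedy remainder is at most the distance to that combination. -/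
def IsoGreedy {X ι : Type} [AddCommGroup X] [Module 𝕜 X] (x : ι → X) (c : ι → X → 𝕜)
    (N : X → ℝ) : Prop :=
  ∀ (f : X) (A B : Finset ι) (b : ι → 𝕜), (∀ n ∈ A, ∀ k ∉ A, ‖c k f‖ ≤ ‖c n f‖) →
    B.card ≤ A.card → N (f - ∑ n ∈ A, c n f • x n) ≤ N (f - ∑ n ∈ B, b n • x n)

end Pool.Agent.P.MP_f77f75_an
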