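import Pool.Agent.P.MP_f77f75_an.Seq
import Pool.Agent.P.MP_f77f75_an.Bellman
import Pool.Agent.P.MP_f77f75_an.Defs

/-!
The renorming for an abstract biorthogonal system.
-/

set_option autoImplicit false

namespace Pool.Agent.P.MP_f77f75_an

open Finset

lemma lam_facts {p p' : ℝ} (hpp : p.HolderConjugate p') (k : ℕ) (hk : 1 ≤ k) :
    2 * (1 / (4 * p)) * (k : ℝ) ^ (-(1 / p')) ≤
      (k + 1) * ((k + 1 : ℕ) : ℝ) ^ (-(1 / p')) - k * (k : ℝ) ^ (-(1 / p')) ∧
    (k + 1) * ((k : ℝ) ^ (-(1 / p')) - ((k + 1 : ℕ) : ℝ) ^ (-(1 / p'))) ≤ (k : ℝ) ^ (-(1 / p')) := by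
  have hp := hpp.pos
  have hp' := hpp.symm.pos
  have hk' : (1 : ℝ) ≤ k := by exact_mod_cast hk
  have hk0 : (0 : ℝ) < k := by linarith
  set s := 1 / p' with hs
  have hs0 : 0 ≤ s := by positivity
  have hsum : 1 / p + s = 1 := by rw [hs, one_div, one_div]; exact hpp.inv_add_inv_eq_one
  have hs1 : s ≤ 1 := by have : 0 < 1 / p := by positivity
                         linarith
  push_cast
  set a := (k : ℝ) ^ (-s) with ha
  set b := ((k : ℝ) + 1) ^ (-s) with hb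
  have ha0 : 0 < a := Real.rpow_pos_of_pos hk0 _
  have hb0 : 0 < b := Real.rpow_pos_of_pos (by linarith) _
  -- a = b * (1 + 1/k)^s ≤ b * (1 + s/k)
  have hab : a = b * (1 + 1 / k) ^ s := by
    have : (1 + 1 / k : ℝ) = (k + 1) / k := by field_simp
    rw [this, Real.div_rpow (by linarith) hk0.le, ha, hb, Real.rpow_neg hk0.le,
      Real.rpow_neg (by linarith)]
    have : (0 : ℝ) < (k + 1) ^ s := Real.rpow_pos_of_pos (by linarith) _
    field_simp
  have hbern : (1 + 1 / k : ℝ) ^ s ≤ 1 + s * (1 / k) :=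
    rpow_one_add_le_one_add_mul_self (by have : 0 < 1 / (k : ℝ) := by positivity
                                         linarith) hs0 hs1
  have h1 : k * a ≤ b * (k + s) := by
    have : k * a ≤ k * (b * (1 + s * (1 / k))) := by
      rw [hab]; gcongr
    have e : k * (b * (1 + s * (1 / k))) = b * (k + s) := by field_simp
    linarith
  have h2 : a ≤ 2 * b := by
    have : k * a ≤ k * (2 * b) := by nlinarith
    exact le_of_mul_le_mul_left this hk0
  constructor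
  · have e : 2 * (1 / (4 * p)) * a = (1 / p) * (a / 2) := by field_simp; ring
    have : (1 / p) * (a / 2) ≤ (1 / p) * b := by
      apply mul_le_mul_of_nonneg_left (by linarith) (by positivity)
    have e2 : 1 / p = 1 - s := by linarith
    rw [e]
    rw [e2] at this ⊢
    nlinarith
  · nlinarith

variable {𝕜 : Type} [RCLike 𝕜] {X Y ι : Type} [NormedAddCommGroup X] [NormedSpace 𝕜 X]
  [NormedAddCommGroup Y] [NormedSpace 𝕜 Y] [DecidableEq ι]

/-- The analytic input. -/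
structure Sys (𝕜 : Type) [RCLike 𝕜] (X Y ι : Type) [NormedAddCommGroup X] [NormedSpace 𝕜 X]
    [NormedAddCommGroup Y] [NormedSpace 𝕜 Y] [DecidableEq ι] where
  p : ℝ
  p' : ℝ
  hpp : p.HolderConjugate p'
  B : X →ₗ[𝕜] Y →ₗ[𝕜] 𝕜
  x : ι → X
  y : ι → Y
  i₀ : ι
  C : ℝ
  K : ℝ
  C_pos : 0 < C
  K_pos : 0 < K
  hB : ∀ f g, ‖B f g‖ ≤ ‖f‖ * ‖g‖
  biorth : ∀ i j, B (x i) (y j) = if i = j then 1 else 0
  demx : ∀ (A : Finset ι) (σ : ι → 𝕜), (∀ j, ‖σ j‖ ≤ 1) →
    ‖∑ j ∈ A, σ j • x j‖ ≤ C * (A.card : ℝ) ^ (1 / p)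
  demy : ∀ (A : Finset ι) (σ : ι → 𝕜), (∀ j, ‖σ j‖ ≤ 1) →
    ‖∑ j ∈ A, σ j • y j‖ ≤ C * (A.card : ℝ) ^ (1 / p')
  paley : ∀ (J : Finset ι) f g, ∑ j ∈ J, ‖B f (y j)‖ * ‖B (x j) g‖ ≤ K * ‖f‖ * ‖g‖
  norming : ∀ f M, 0 ≤ M → (∀ g, ‖B f g‖ ≤ M * ‖g‖) → ‖f‖ ≤ M
  dense : ∀ f ε, 0 < ε → ∃ (J : Finset ι) (a : ι → 𝕜), ‖f - ∑ j ∈ J, a j • x j‖ ≤ ε

namespace Sys

variable (T : Sys 𝕜 X Y ι)

lemma coef_sum_x (J : Finset ι) (a : ι → 𝕜) (i : ι) :
    T.B (∑ j ∈ J, a j • T.x j) (T.y i) = if i ∈ J then a i else 0 := by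
  rw [map_sum, LinearMap.sum_apply]
  simp only [map_smul, LinearMap.smul_apply, T.biorth, smul_eq_mul, mul_ite, mul_one, mul_zero]
  rw [Finset.sum_ite_eq']

lemma coef_sum_y (J : Finset ι) (a : ι → 𝕜) (i : ι) :
    T.B (T.x i) (∑ j ∈ J, a j • T.y j) = if i ∈ J then a i else 0 := by
  rw [map_sum]
  simp only [map_smul, T.biorth, smul_eq_mul, mul_ite, mul_one, mul_zero]
  rw [Finset.sum_ite_eq]

lemma pair_sum_x (J : Finset ι) (a : ι → 𝕜) (g : Y) :
    T.B (∑ j ∈ J, a j • T.x j) g = ∑ j ∈ J, a j * T.B (T.x j) g := by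
  rw [map_sum, LinearMap.sum_apply]
  simp only [map_smul, LinearMap.smul_apply, smul_eq_mul]

lemma pair_proj_le (J : Finset ι) (f : X) (g : Y) :
    ‖T.B (∑ j ∈ J, T.B f (T.y j) • T.x j) g‖ ≤ ∑ j ∈ J, ‖T.B f (T.y j)‖ * ‖T.B (T.x j) g‖ := by
  rw [pair_sum_x]
  exact (norm_sum_le _ _).trans (le_of_eq (Finset.sum_congr rfl fun j _ => norm_mul _ _))

lemma proj_bound (J : Finset ι) (f : X) : ‖∑ j ∈ J, T.B f (T.y j) • T.x j‖ ≤ T.K * ‖f‖ :=
  T.norming _ _ (mul_nonneg T.K_pos.le (norm_nonneg _))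
    (fun g => (T.pair_proj_le J f g).trans (T.paley J f g))

lemma proj_approx (f : X) (ε : ℝ) (hε : 0 < ε) :
    ∃ J : Finset ι, ‖f - ∑ j ∈ J, T.B f (T.y j) • T.x j‖ ≤ ε := by
  have hK := T.K_pos
  obtain ⟨J, a, h⟩ := T.dense f (ε / (T.K + 1)) (by positivity)
  refine ⟨J, ?_⟩
  set f₀ := ∑ j ∈ J, a j • T.x j with hf₀
  have h1 : ∑ j ∈ J, T.B f (T.y j) • T.x j = f₀ + ∑ j ∈ J, T.B (f - f₀) (T.y j) • T.x j := by
    rw [hf₀, ← Finset.sum_add_distrib]
    refine Finset.sum_congr rfl fun j hj => ?_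
    rw [map_sub, LinearMap.sub_apply, coef_sum_x, if_pos hj, ← add_smul]
    congr 1; ring
  rw [h1, ← sub_sub]
  have h2 := T.proj_bound J (f - f₀)
  have h3 := norm_sub_le (f - f₀) (∑ j ∈ J, T.B (f - f₀) (T.y j) • T.x j)
  have h4 : (T.K + 1) * ‖f - f₀‖ ≤ ε := by
    rw [le_div_iff₀ (by positivity)] at h
    linarith
  linarith

lemma pair_le_of_sums (f : X) (g : Y) (M : ℝ)
    (h : ∀ J : Finset ι, ∑ j ∈ J, ‖T.B f (T.y j)‖ * ‖T.B (T.x j) g‖ ≤ M) : ‖T.B f g‖ ≤ M := by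
  refine le_of_forall_pos_le_add fun ε hε => ?_
  obtain ⟨J, hJ⟩ := T.proj_approx f (ε / (‖g‖ + 1)) (by positivity)
  set f₀ := ∑ j ∈ J, T.B f (T.y j) • T.x j with hf₀
  have h1 : T.B f g = T.B f₀ g + T.B (f - f₀) g := by
    rw [map_sub, LinearMap.sub_apply]; ring
  have h2 := (T.pair_proj_le J f g).trans (h J)
  have h3 := T.hB (f - f₀) g
  have h4 : ‖f - f₀‖ * ‖g‖ ≤ ε := by
    rw [le_div_iff₀ (by positivity)] at hJ
    nlinarith [norm_nonneg (f - f₀)]
  rw [h1]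
  exact (norm_add_le _ _).trans (by linarith)

lemma sum_coef_le (A : Finset ι) (f : X) :
    ∑ j ∈ A, ‖T.B f (T.y j)‖ ≤ ‖f‖ * (T.C * (A.card : ℝ) ^ (1 / T.p')) := by
  choose σ hσ hσ' using fun j => exists_sign (T.B f (T.y j))
  have h1 : T.B f (∑ j ∈ A, σ j • T.y j) = ((∑ j ∈ A, ‖T.B f (T.y j)‖ : ℝ) : 𝕜) := by
    rw [map_sum]
    push_cast
    exact Finset.sum_congr rfl fun j _ => by rw [map_smul, smul_eq_mul, hσ']
  have h2 := T.hB f (∑ j ∈ A, σ j • T.y j)
  rw [h1, RCLike.norm_ofReal] at h2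
  exact (le_abs_self _).trans (h2.trans
    (mul_le_mul_of_nonneg_left (T.demy A σ hσ) (norm_nonneg _)))

/-- the sequence-level data. -/
noncomputable def setup : Setup ι where
  lam k := (k : ℝ) ^ (-(1 / T.p'))
  ε := 1 / (4 * T.p)
  G J g := ∀ f, ∑ j ∈ J, g j * ‖T.B f (T.y j)‖ ≤ (1 / (4 * T.p) / T.C) * ‖f‖
  ε_pos := by have := T.hpp.pos; positivity
  lam_pos k hk := Real.rpow_pos_of_pos (by exact_mod_cast hk) _
  lam_anti k l hk hkl := Real.rpow_le_rpow_of_nonpos (by exact_mod_cast hk) (by exact_mod_cast hkl)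
    (by have := T.hpp.symm.pos; simp; positivity)
  lam_grow k hk := (lam_facts T.hpp k hk).1
  lam_drop k hk := (lam_facts T.hpp k hk).2
  G_mono J g g' _ h2 h f := (Finset.sum_le_sum fun j _ =>
    mul_le_mul_of_nonneg_right (h2 j) (norm_nonneg _)).trans (h f)
  G_count J g k hk hg h R hRJ hR := by
    by_contra hlt
    push Not at hlt
    have hp := T.hpp.pos
    have hp' := T.hpp.symm.pos
    have hC := T.C_pos
    have hRpos : (0 : ℝ) < R.card := by exact_mod_cast (by omega : 0 < R.card)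
    have hRne : R.Nonempty := Finset.card_pos.1 (by omega)
    have h1 := h (∑ j ∈ R, (1 : 𝕜) • T.x j)
    have h2 := T.demx R (fun _ => 1) (by simp)
    have h3 : ∑ j ∈ R, g j ≤ ∑ j ∈ J, g j * ‖T.B (∑ j ∈ R, (1 : 𝕜) • T.x j) (T.y j)‖ := by
      refine le_trans (le_of_eq ?_) (Finset.sum_le_sum_of_subset_of_nonneg hRJ
        (fun j _ _ => mul_nonneg (hg j) (norm_nonneg _)))
      refine Finset.sum_congr rfl fun j hj => ?_
      rw [T.coef_sum_x, if_pos hj]; simp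
    have h4 : (R.card : ℝ) * (1 / (4 * T.p) * (k : ℝ) ^ (-(1 / T.p'))) < ∑ j ∈ R, g j := by
      have := Finset.sum_lt_sum_of_nonempty hRne hR
      simpa using this
    have h5 : (R.card : ℝ) ^ (-(1 / T.p')) ≤ (k : ℝ) ^ (-(1 / T.p')) :=
      Real.rpow_le_rpow_of_nonpos (by exact_mod_cast hk) (by exact_mod_cast hlt.le)
        (by simp; positivity)
    have h6 : (R.card : ℝ) ^ (1 / T.p) = R.card * (R.card : ℝ) ^ (-(1 / T.p')) := by
      rw [← Real.rpow_one_add' hRpos.le]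
      · congr 1
        have := T.hpp.inv_add_inv_eq_one
        simp only [one_div]; linarith
      · have := T.hpp.inv_add_inv_eq_one
        have : 0 < T.p⁻¹ := by positivity
        simp only [one_div]; linarith
    have h7 : 1 / (4 * T.p) / T.C * ‖∑ j ∈ R, (1 : 𝕜) • T.x j‖ ≤
        1 / (4 * T.p) * (R.card : ℝ) ^ (1 / T.p) := by
      calc _ ≤ 1 / (4 * T.p) / T.C * (T.C * (R.card : ℝ) ^ (1 / T.p)) := by gcongr
        _ = _ := by field_simp
    have h8 : 1 / (4 * T.p) * (R.card * (R.card : ℝ) ^ (-(1 / T.p'))) ≤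
        1 / (4 * T.p) * (R.card * (k : ℝ) ^ (-(1 / T.p'))) := by gcongr
    rw [h6] at h7
    linarith

/-- moduli of the coefficients. -/
noncomputable def u (f : X) (j : ι) : ℝ := ‖T.B f (T.y j)‖

/-- upper constant. -/
noncomputable def up : ℝ := T.C + 1 / (4 * T.p) / T.C

lemma Bd_up (f : X) : T.setup.Bd (T.u f) (T.up * ‖f‖) := by
  intro A J g h
  have hA : (0 : ℝ) < A.card := by exact_mod_cast h.1.card_pos
  have h1 := T.sum_coef_le A f
  have h2 := h.2.2 f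
  have h3 : (∑ i ∈ J, if i ∈ A then 0 else g i * T.u f i) ≤ ∑ j ∈ J, g j * ‖T.B f (T.y j)‖ := by
    refine Finset.sum_le_sum fun j _ => ?_
    split_ifs
    · exact mul_nonneg (h.2.1 j).1 (norm_nonneg _)
    · exact le_rfl
  have h4 : T.setup.lam A.card * ∑ i ∈ A, T.u f i ≤ T.C * ‖f‖ := by
    have hl : 0 < T.setup.lam A.card := T.setup.lam_pos _ h.1.card_pos
    refine (mul_le_mul_of_nonneg_left h1 hl.le).trans (le_of_eq ?_)
    have : T.setup.lam A.card * (A.card : ℝ) ^ (1 / T.p') = 1 := by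
      show (A.card : ℝ) ^ (-(1 / T.p')) * _ = 1
      rw [← Real.rpow_add hA]; simp
    linear_combination (‖f‖ * T.C) * this
  unfold Setup.val up
  linarith

lemma adm_zero : T.setup.Adm {T.i₀} ∅ 0 := by
  refine ⟨Finset.singleton_nonempty _, fun i => ⟨le_rfl, ?_⟩, fun f => ?_⟩
  · exact mul_nonneg T.setup.ε_pos.le (T.setup.lam_pos _ (by simp)).le
  · have := T.hpp.pos
    have := T.C_pos
    simp only [Finset.sum_empty]
    positivity

/-- the new norm. -/
noncomputable def NN (f : X) : ℝ :=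
  sSup {r : ℝ | ∃ A J g, T.setup.Adm A J g ∧ r = T.setup.val A J g (T.u f)}

lemma NN_le_iff (f : X) (M : ℝ) : T.NN f ≤ M ↔ T.setup.Bd (T.u f) M := by
  unfold NN
  rw [csSup_le_iff]
  · constructor
    · intro h A J g hA
      exact h _ ⟨A, J, g, hA, rfl⟩
    · rintro h r ⟨A, J, g, hA, rfl⟩
      exact h A J g hA
  · refine ⟨T.up * ‖f‖, ?_⟩
    rintro r ⟨A, J, g, hA, rfl⟩
    exact T.Bd_up f A J g hA
  · exact ⟨_, _, _, _, T.adm_zero, rfl⟩

lemma Bd_NN (f : X) : T.setup.Bd (T.u f) (T.NN f) := (T.NN_le_iff f _).1 le_rfl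

lemma val_add (A J : Finset ι) (g a b : ι → ℝ) :
    T.setup.val A J g (a + b) = T.setup.val A J g a + T.setup.val A J g b := by
  unfold Setup.val
  have : (∑ i ∈ J, if i ∈ A then 0 else g i * (a + b) i) =
      (∑ i ∈ J, if i ∈ A then 0 else g i * a i) + ∑ i ∈ J, if i ∈ A then 0 else g i * b i := by
    rw [← Finset.sum_add_distrib]
    refine Finset.sum_congr rfl fun i _ => ?_
    split_ifs
    · simp
    · simp [mul_add]
  rw [this]
  simp only [Pi.add_apply, Finset.sum_add_distrib]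
  ring

lemma val_smul (A J : Finset ι) (g a : ι → ℝ) (c : ℝ) :
    T.setup.val A J g (c • a) = c * T.setup.val A J g a := by
  unfold Setup.val
  have : (∑ i ∈ J, if i ∈ A then 0 else g i * (c • a) i) =
      c * ∑ i ∈ J, if i ∈ A then 0 else g i * a i := by
    rw [Finset.mul_sum]
    refine Finset.sum_congr rfl fun i _ => ?_
    split_ifs
    · simp
    · simp; ring
  rw [this]
  simp only [Pi.smul_apply, smul_eq_mul, ← Finset.mul_sum]
  ring

lemma NN_add_le (f f' : X) : T.NN (f + f') ≤ T.NN f + T.NN f' := by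
  rw [NN_le_iff]
  refine T.setup.Bd_mono (v := T.u f + T.u f') (fun i => ?_) (fun A J g hA => ?_)
  · simp only [u, Pi.add_apply, map_add, LinearMap.add_apply]
    exact norm_add_le _ _
  · rw [val_add]
    exact add_le_add (T.Bd_NN f A J g hA) (T.Bd_NN f' A J g hA)

lemma NN_smul_le (c : 𝕜) (f : X) : T.NN (c • f) ≤ ‖c‖ * T.NN f := by
  rw [NN_le_iff]
  have : T.u (c • f) = ‖c‖ • T.u f := by
    funext i; simp [u]
  intro A J g hA
  rw [this, val_smul]
  exact mul_le_mul_of_nonneg_left (T.Bd_NN f A J g hA) (norm_nonneg _)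

lemma NN_nonneg (f : X) : 0 ≤ T.NN f := by
  refine le_trans ?_ (T.Bd_NN f _ _ _ T.adm_zero)
  have := (T.setup.lam_pos 1 le_rfl).le
  simp only [Setup.val, Finset.card_singleton, Finset.sum_singleton, Finset.sum_empty, add_zero]
  exact mul_nonneg this (norm_nonneg _)

lemma NN_upper (f : X) : T.NN f ≤ T.up * ‖f‖ := (T.NN_le_iff f _).2 (T.Bd_up f)

/-- the new norm as a seminorm. -/
noncomputable def semi : Seminorm 𝕜 X :=
  Seminorm.ofSMulLE T.NN (le_antisymm (by simpa using T.NN_upper 0) (T.NN_nonneg 0))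
    T.NN_add_le T.NN_smul_le

lemma exists_lower : ∃ c, 0 < c ∧ ∀ f, c * ‖f‖ ≤ T.NN f := by
  have hp := T.hpp.pos
  have hp1 := T.hpp.lt
  have hC := T.C_pos
  have hK := T.K_pos
  set ε := 1 / (4 * T.p) with hε
  have hε0 : 0 < ε := by positivity
  have hε1 : ε ≤ 1 := by rw [hε, div_le_one (by positivity)]; linarith
  set κ := ε / T.C / (T.K + 1) with hκ
  have hκ0 : 0 < κ := by positivity
  refine ⟨κ, hκ0, fun f => ?_⟩
  rw [mul_comm, ← le_div_iff₀ hκ0]
  have hN := T.NN_nonneg f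
  refine T.norming f _ (by positivity) fun g => ?_
  by_cases hg : g = 0
  · simp [hg]
  have hg0 : 0 < ‖g‖ := norm_pos_iff.2 hg
  refine T.pair_le_of_sums f g _ fun J => ?_
  set γ : ι → ℝ := fun j => κ / ‖g‖ * ‖T.B (T.x j) g‖ with hγ
  have hx : ∀ j, ‖T.x j‖ ≤ T.C := fun j => by
    simpa using T.demx {j} (fun _ => 1) (by simp)
  have hγb : ∀ j, 0 ≤ γ j ∧ γ j ≤ ε := fun j => by
    refine ⟨by positivity, ?_⟩
    have h1 : ‖T.B (T.x j) g‖ ≤ T.C * ‖g‖ :=
      (T.hB _ _).trans (mul_le_mul_of_nonneg_right (hx j) hg0.le)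
    calc γ j ≤ κ / ‖g‖ * (T.C * ‖g‖) := by simp only [hγ]; gcongr
      _ = ε / (T.K + 1) := by rw [hκ]; field_simp
      _ ≤ ε := div_le_self hε0.le (by linarith)
  have hl : T.setup.lam 1 = 1 := by simp [setup]
  have hadm : T.setup.Adm {T.i₀} J γ := by
    refine ⟨Finset.singleton_nonempty _, fun i => ⟨(hγb i).1, ?_⟩, fun f' => ?_⟩
    · rw [Finset.card_singleton, hl, mul_one]; exact (hγb i).2
    · have h1 := T.paley J f' g
      have h2 : ∑ j ∈ J, γ j * ‖T.B f' (T.y j)‖ =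
          κ / ‖g‖ * ∑ j ∈ J, ‖T.B f' (T.y j)‖ * ‖T.B (T.x j) g‖ := by
        rw [Finset.mul_sum]
        exact Finset.sum_congr rfl fun j _ => by simp only [hγ]; ring
      rw [h2]
      calc _ ≤ κ / ‖g‖ * (T.K * ‖f'‖ * ‖g‖) := by gcongr
        _ = ε / T.C * (T.K / (T.K + 1)) * ‖f'‖ := by rw [hκ]; field_simp
        _ ≤ ε / T.C * 1 * ‖f'‖ := by
          gcongr
          rw [div_le_one (by positivity)]; linarith
        _ = _ := by rw [mul_one]
  have h1 := T.Bd_NN f _ _ _ hadm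
  have h2 : ∑ j ∈ J, γ j * T.u f j ≤ T.setup.val {T.i₀} J γ (T.u f) := by
    unfold Setup.val
    rw [Finset.card_singleton, hl, one_mul, Finset.sum_singleton]
    have h3 : ∑ j ∈ J, γ j * T.u f j ≤ ∑ j ∈ J, ((if j = T.i₀ then T.u f j else 0) +
        if j ∈ ({T.i₀} : Finset ι) then 0 else γ j * T.u f j) := by
      refine Finset.sum_le_sum fun j _ => ?_
      simp only [Finset.mem_singleton]
      split_ifs
      · rw [add_zero]
        exact mul_le_of_le_one_left (norm_nonneg _) ((hγb j).2.trans hε1)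
      · simp
    rw [Finset.sum_add_distrib, Finset.sum_ite_eq'] at h3
    have : (if T.i₀ ∈ J then T.u f T.i₀ else 0) ≤ T.u f T.i₀ := by
      split_ifs
      · exact le_rfl
      · exact norm_nonneg _
    linarith
  have h4 : ∑ j ∈ J, γ j * T.u f j =
      κ / ‖g‖ * ∑ j ∈ J, ‖T.B f (T.y j)‖ * ‖T.B (T.x j) g‖ := by
    rw [Finset.mul_sum]
    exact Finset.sum_congr rfl fun j _ => by simp only [hγ, u]; ring
  have h5 : κ / ‖g‖ * ∑ j ∈ J, ‖T.B f (T.y j)‖ * ‖T.B (T.x j) g‖ ≤ T.NN f := by linarith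
  rw [div_mul_eq_mul_div, div_le_iff₀ hg0] at h5
  rw [div_mul_eq_mul_div, le_div_iff₀ hκ0]
  linarith

theorem greedy_primal : IsoGreedy T.x (fun j f => T.B f (T.y j)) T.NN := by
  intro f A B b hA hB
  rw [NN_le_iff]
  have := T.setup.Bd_greedy (T.u f) (T.u (f - ∑ n ∈ B, b n • T.x n)) (fun _ => norm_nonneg _)
    (fun _ => norm_nonneg _) A B hA hB (fun i hi => by
      simp only [u, map_sub, LinearMap.sub_apply, coef_sum_x, hi, if_false, sub_zero])
    (T.Bd_NN _)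
  convert this using 1
  funext i
  simp only [u, top, map_sub, LinearMap.sub_apply, coef_sum_x]
  split_ifs <;> simp

/-- the dual norm. -/
noncomputable def DN (g : Y) : ℝ := sSup {r : ℝ | ∃ f : X, T.NN f ≤ 1 ∧ r = ‖T.B f g‖}

lemma DN_le_iff (g : Y) (M : ℝ) : T.DN g ≤ M ↔ T.setup.DBd (fun j => ‖T.B (T.x j) g‖) M := by
  obtain ⟨c, hc, hlow⟩ := T.exists_lower
  unfold DN
  rw [csSup_le_iff]
  · constructor
    · intro h J a ha hJ hB
      choose σ hσ hσ' using fun j => exists_sign (T.B (T.x j) g)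
      have h1 : T.NN (∑ j ∈ J, ((a j : 𝕜) * σ j) • T.x j) ≤ 1 := by
        rw [NN_le_iff]
        refine T.setup.Bd_mono (fun i => ?_) hB
        simp only [u, coef_sum_x]
        split_ifs
        · rw [norm_mul, RCLike.norm_ofReal, abs_of_nonneg (ha i)]
          exact mul_le_of_le_one_right (ha i) (hσ i)
        · simpa using ha i
      have h2 := h _ ⟨_, h1, rfl⟩
      have h3 : T.B (∑ j ∈ J, ((a j : 𝕜) * σ j) • T.x j) g =
          ((∑ j ∈ J, a j * ‖T.B (T.x j) g‖ : ℝ) : 𝕜) := by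
        rw [pair_sum_x]
        push_cast
        exact Finset.sum_congr rfl fun j _ => by rw [mul_assoc, hσ']
      rw [h3, RCLike.norm_ofReal] at h2
      exact (le_abs_self _).trans h2
    · rintro h r ⟨f, hf, rfl⟩
      refine T.pair_le_of_sums f g M fun J => ?_
      have := h J (fun j => if j ∈ J then T.u f j else 0)
        (fun j => by split_ifs; exacts [norm_nonneg _, le_rfl]) (fun j hj => by simp [hj])
        (T.setup.Bd_mono (fun j => by split_ifs; exacts [le_rfl, norm_nonneg _])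
          ((T.NN_le_iff f 1).1 hf))
      refine le_trans (le_of_eq (Finset.sum_congr rfl fun j hj => ?_)) this
      simp [hj, u]
  · refine ⟨1 / c * ‖g‖, ?_⟩
    rintro r ⟨f, hf, rfl⟩
    refine (T.hB f g).trans (mul_le_mul_of_nonneg_right ?_ (norm_nonneg _))
    rw [le_div_iff₀ hc]
    have := hlow f
    linarith
  · exact ⟨_, 0, by simpa using (T.NN_upper 0).trans (by simp), rfl⟩

theorem greedy_dual : IsoGreedy T.y (fun j g => T.B (T.x j) g) T.DN := by
  intro g A B b hA hB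
  rw [DN_le_iff]
  have := T.setup.DBd_greedy (fun j => ‖T.B (T.x j) g‖)
    (fun j => ‖T.B (T.x j) (g - ∑ n ∈ B, b n • T.y n)‖) (fun _ => norm_nonneg _)
    (fun _ => norm_nonneg _) A B hA hB (fun i hi => by
      simp only [map_sub, coef_sum_y, hi, if_false, sub_zero])
    ((T.DN_le_iff _ _).1 le_rfl)
  convert this using 1
  funext i
  simp only [top, map_sub, coef_sum_y]
  split_ifs <;> simp

end Sys

end Pool.Agent.P.MP_f77f75_an
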