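import Pool.Agent.P.MP_f77f75_an.Bellman
import Pool.Agent.P.MP_f77f75_an.Defs

/-!
Pointwise facts on dyadic indicators and Haar functions.
-/

set_option autoImplicit false

namespace Pool.Agent.P.MP_f77f75_an

open Finset MeasureTheory

/-- Lebesgue measure on the unit interval. -/
noncomputable abbrev μ01 : Measure ℝ := volume.restrict (Set.Icc (0 : ℝ) 1)

/-- dyadic interval. -/
def dI (n k : ℕ) : Set ℝ := Set.Ico ((k : ℝ) / 2 ^ n) (((k : ℝ) + 1) / 2 ^ n)

lemma mem_dI {n k : ℕ} {t : ℝ} : t ∈ dI n k ↔ (k : ℝ) ≤ 2 ^ n * t ∧ 2 ^ n * t < k + 1 := by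
  unfold dI
  rw [Set.mem_Ico, div_le_iff₀ (by positivity), lt_div_iff₀ (by positivity), mul_comm]

lemma measurableSet_dI (n k : ℕ) : MeasurableSet (dI n k) := measurableSet_Ico

/-- indicator of a dyadic interval. -/
noncomputable def chi (n k : ℕ) : ℝ → ℝ := (dI n k).indicator 1

lemma chi_eq (n k : ℕ) (t : ℝ) :
    chi n k t = if (k : ℝ) ≤ 2 ^ n * t ∧ 2 ^ n * t < k + 1 then 1 else 0 := by
  unfold chi
  by_cases h : t ∈ dI n k
  · rw [Set.indicator_of_mem h, if_pos (mem_dI.1 h)]; rfl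
  · rw [Set.indicator_of_notMem h, if_neg (fun h' => h (mem_dI.2 h'))]

lemma chi_cases (n k : ℕ) (t : ℝ) : chi n k t = 0 ∨ chi n k t = 1 := by
  rw [chi_eq]; split_ifs <;> simp

lemma chi_nonneg (n k : ℕ) (t : ℝ) : 0 ≤ chi n k t := by
  rcases chi_cases n k t with h | h <;> simp [h]

lemma chi_le_one (n k : ℕ) (t : ℝ) : chi n k t ≤ 1 := by
  rcases chi_cases n k t with h | h <;> simp [h]

lemma chi_split (n k : ℕ) (t : ℝ) :
    chi n k t = chi (n + 1) (2 * k) t + chi (n + 1) (2 * k + 1) t := by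
  simp only [chi_eq]
  have : (2 : ℝ) ^ (n + 1) * t = 2 * (2 ^ n * t) := by ring
  rw [this]
  push_cast
  generalize (2 : ℝ) ^ n * t = s
  by_cases a1 : (k : ℝ) ≤ s <;> by_cases a2 : s < k + 1 <;> by_cases a3 : 2 * (k : ℝ) + 1 ≤ 2 * s
  · rw [if_pos ⟨a1, a2⟩, if_neg (fun h => by linarith [h.2]), if_pos ⟨a3, by linarith⟩]; simp
  · rw [if_pos ⟨a1, a2⟩, if_pos ⟨by linarith, by linarith⟩, if_neg (fun h => a3 h.1)]; simp
  · rw [if_neg (fun h => a2 h.2), if_neg (fun h => by linarith [h.2]),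
      if_neg (fun h => by linarith [h.2])]; simp
  · exfalso; linarith
  · exfalso; linarith
  · rw [if_neg (fun h => a1 h.1), if_neg (fun h => by linarith [h.1]),
      if_neg (fun h => by linarith [h.1])]; simp
  · exfalso; linarith
  · exfalso; linarith

lemma chi_mul_ne {n k l : ℕ} (h : k ≠ l) (t : ℝ) : chi n k t * chi n l t = 0 := by
  simp only [chi_eq]
  split_ifs with h1 h2
  · exfalso
    rcases lt_or_gt_of_ne h with h | h
    · have : (k : ℝ) + 1 ≤ l := by exact_mod_cast h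
      linarith [h1.2, h2.1]
    · have : (l : ℝ) + 1 ≤ k := by exact_mod_cast h
      linarith [h1.1, h2.2]
  all_goals simp

lemma chi_mul_self (n k : ℕ) (t : ℝ) : chi n k t * chi n k t = chi n k t := by
  rcases chi_cases n k t with h | h <;> simp [h]

lemma chi_parent (m l : ℕ) (t : ℝ) : chi m (l / 2) t * chi (m + 1) l t = chi (m + 1) l t := by
  rw [chi_split m (l / 2)]
  rcases Nat.even_or_odd' l with ⟨j, rfl | rfl⟩
  · rw [show 2 * j / 2 = j by omega, add_mul, chi_mul_self, chi_mul_ne (by omega), add_zero]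
  · rw [show (2 * j + 1) / 2 = j by omega, add_mul, chi_mul_self, chi_mul_ne (by omega), zero_add]

lemma chi_nested (n k d : ℕ) : ∀ l, ∃ e : ℝ, ∀ t, chi n k t * chi (n + d) l t = e * chi (n + d) l t := by
  induction d with
  | zero =>
    intro l
    by_cases h : k = l
    · exact ⟨1, fun t => by rw [h, add_zero, chi_mul_self, one_mul]⟩
    · exact ⟨0, fun t => by rw [add_zero, chi_mul_ne h, zero_mul]⟩
  | succ d ih =>
    intro l
    obtain ⟨e, he⟩ := ih (l / 2)
    refine ⟨e, fun t => ?_⟩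
    rw [← add_assoc, ← chi_parent (n + d) l t, ← mul_assoc, he, mul_assoc]

lemma sum_chi (n : ℕ) (t : ℝ) : ∑ k ∈ range (2 ^ n), chi n k t = chi 0 0 t := by
  induction n with
  | zero => simp
  | succ n ih =>
    rw [sum_range_two_pow_succ, ← ih]
    exact Finset.sum_congr rfl fun k _ => (chi_split n k t).symm

lemma measure_dI {n k : ℕ} (hk : k < 2 ^ n) : μ01 (dI n k) = ENNReal.ofReal (1 / 2 ^ n) := by
  have hsub : dI n k ⊆ Set.Icc 0 1 := by
    intro t ht
    rw [mem_dI] at ht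
    have h1 : (k : ℝ) + 1 ≤ 2 ^ n := by exact_mod_cast hk
    have h2 : (0 : ℝ) < 2 ^ n := by positivity
    have h3 : (0 : ℝ) ≤ k := by positivity
    constructor
    · by_contra h; push Not at h; nlinarith [ht.1]
    · by_contra h; push Not at h; nlinarith [ht.2]
  rw [Measure.restrict_apply (measurableSet_dI n k), Set.inter_eq_left.2 hsub]
  unfold dI
  rw [Real.volume_Ico]
  congr 1
  ring

lemma measureReal_dI {n k : ℕ} (hk : k < 2 ^ n) : μ01.real (dI n k) = 1 / 2 ^ n := by
  rw [measureReal_def, measure_dI hk, ENNReal.toReal_ofReal (by positivity)]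

lemma measurable_chi (n k : ℕ) : Measurable (chi n k) :=
  measurable_const.indicator (measurableSet_dI n k)

lemma integrable_chi (n k : ℕ) : Integrable (chi n k) μ01 :=
  (integrable_const (1 : ℝ)).indicator (measurableSet_dI n k)

lemma integral_chi {n k : ℕ} (hk : k < 2 ^ n) : ∫ t, chi n k t ∂μ01 = 1 / 2 ^ n := by
  unfold chi
  rw [integral_indicator_one (measurableSet_dI n k), measureReal_dI hk]

lemma chi_smul_eq {E : Type*} [NormedAddCommGroup E] [NormedSpace ℝ E] (n k : ℕ) (f : ℝ → E) :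
    (fun t => chi n k t • f t) = (dI n k).indicator f := by
  funext t
  unfold chi
  by_cases h : t ∈ dI n k
  · simp [Set.indicator_of_mem h]
  · simp [Set.indicator_of_notMem h]

lemma integrable_chi_smul {E : Type*} [NormedAddCommGroup E] [NormedSpace ℝ E] (n k : ℕ)
    {f : ℝ → E} (hf : Integrable f μ01) : Integrable (fun t => chi n k t • f t) μ01 := by
  rw [chi_smul_eq]; exact hf.indicator (measurableSet_dI n k)

lemma integral_chi_split {E : Type*} [NormedAddCommGroup E] [NormedSpace ℝ E] (n k : ℕ)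
    {f : ℝ → E} (hf : Integrable f μ01) :
    ∫ t, chi n k t • f t ∂μ01 =
      ∫ t, chi (n + 1) (2 * k) t • f t ∂μ01 + ∫ t, chi (n + 1) (2 * k + 1) t • f t ∂μ01 := by
  rw [← integral_add (integrable_chi_smul _ _ hf) (integrable_chi_smul _ _ hf)]
  congr 1
  funext t
  rw [chi_split n k t, add_smul]

lemma jensen_dI {p : ℝ} (hp : 1 ≤ p) {n k : ℕ} (hk : k < 2 ^ n) {φ : ℝ → ℝ} (hφ : ∀ t, 0 ≤ φ t)
    (h1 : Integrable φ μ01) (h2 : Integrable (fun t => φ t ^ p) μ01) :
    (2 ^ n * ∫ t, chi n k t • φ t ∂μ01) ^ p ≤ 2 ^ n * ∫ t, chi n k t • φ t ^ p ∂μ01 := by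
  have := (convexOn_rpow hp).map_set_average_le (μ := μ01) (t := dI n k) (f := φ)
    (Real.continuous_rpow_const (by linarith)).continuousOn isClosed_Ici
    (by rw [measure_dI hk]; simp) (measure_ne_top _ _)
    (Filter.Eventually.of_forall hφ) h1.integrableOn h2.integrableOn
  rw [setAverage_eq, setAverage_eq, measureReal_dI hk] at this
  rw [chi_smul_eq, chi_smul_eq n k (fun t => φ t ^ p), integral_indicator (measurableSet_dI n k),
    integral_indicator (measurableSet_dI n k)]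
  simpa using this

lemma sum_integral_chi_le (n : ℕ) {φ : ℝ → ℝ} (hφ : ∀ t, 0 ≤ φ t) (h1 : Integrable φ μ01) :
    ∑ k ∈ range (2 ^ n), ∫ t, chi n k t • φ t ∂μ01 ≤ ∫ t, φ t ∂μ01 := by
  rw [← integral_finsetSum _ (fun k _ => integrable_chi_smul n k h1)]
  refine integral_mono (integrable_finsetSum _ (fun k _ => integrable_chi_smul n k h1)) h1
    fun t => ?_
  simp only [smul_eq_mul]
  rw [← Finset.sum_mul, sum_chi]
  exact mul_le_of_le_one_left (hφ t) (chi_le_one 0 0 t)

/-- the index set. -/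
abbrev Idx : Type := Option ((n : ℕ) × Fin (2 ^ n))

/-- unnormalised Haar function. -/
noncomputable def hh (n k : ℕ) (t : ℝ) : ℝ := chi (n + 1) (2 * k) t - chi (n + 1) (2 * k + 1) t

/-- normalised Haar functions, pointwise. -/
noncomputable def hf (q : ℝ) : Idx → ℝ → ℝ
  | none => chi 0 0
  | some ⟨n, k⟩ => fun t => (2 ^ n : ℝ) ^ (1 / q) * hh n k t

lemma abs_hh (n k : ℕ) (t : ℝ) : |hh n k t| = chi n k t := by
  have h := chi_mul_ne (n := n + 1) (k := 2 * k) (l := 2 * k + 1) (by omega) t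
  unfold hh
  rw [chi_split n k t]
  rcases chi_cases (n + 1) (2 * k) t with h1 | h1 <;>
    rcases chi_cases (n + 1) (2 * k + 1) t with h2 | h2 <;> simp_all

lemma hh_mul_self (n k : ℕ) (t : ℝ) : hh n k t * hh n k t = chi n k t := by
  rw [← abs_mul_abs_self, abs_hh, chi_mul_self]

lemma chi_mul_hh (n k : ℕ) (t : ℝ) : chi n k t * hh n k t = hh n k t := by
  rcases chi_cases n k t with h | h
  · have := abs_hh n k t
    rw [h, abs_eq_zero] at this
    simp [this]
  · simp [h]

lemma integrable_hh (n k : ℕ) : Integrable (hh n k) μ01 :=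
  (integrable_chi _ _).sub (integrable_chi _ _)

lemma integral_hh {n k : ℕ} (hk : k < 2 ^ n) : ∫ t, hh n k t ∂μ01 = 0 := by
  unfold hh
  rw [integral_sub (integrable_chi _ _) (integrable_chi _ _),
    integral_chi (by rw [pow_succ]; omega), integral_chi (by rw [pow_succ]; omega), sub_self]

lemma integral_chi_mul_hh' {n k m l : ℕ} (hnm : n ≤ m) (hl : l < 2 ^ m) :
    ∫ t, chi n k t * hh m l t ∂μ01 = 0 := by
  obtain ⟨d, rfl⟩ := Nat.exists_eq_add_of_le hnm
  obtain ⟨e, he⟩ := chi_nested n k d l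
  have : (fun t => chi n k t * hh (n + d) l t) = fun t => e * hh (n + d) l t := by
    funext t
    rw [← chi_mul_hh, ← mul_assoc, he, mul_assoc]
  rw [this, integral_const_mul, integral_hh hl, mul_zero]

lemma integrable_chi_mul_hh (n k m l : ℕ) : Integrable (fun t => chi n k t * hh m l t) μ01 :=
  integrable_chi_smul n k (integrable_hh m l)

lemma integral_hh_mul_hh_lt {n k m l : ℕ} (hnm : n < m) (hl : l < 2 ^ m) :
    ∫ t, hh n k t * hh m l t ∂μ01 = 0 := by
  have : (fun t => hh n k t * hh m l t) =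
      fun t => chi (n + 1) (2 * k) t * hh m l t - chi (n + 1) (2 * k + 1) t * hh m l t := by
    funext t; rw [← sub_mul]; rfl
  rw [this, integral_sub (integrable_chi_mul_hh _ _ _ _) (integrable_chi_mul_hh _ _ _ _),
    integral_chi_mul_hh' hnm hl, integral_chi_mul_hh' hnm hl, sub_self]

lemma rpow_mul_rpow_conj {p p' : ℝ} (hpp : p.HolderConjugate p') (n : ℕ) :
    (2 ^ n : ℝ) ^ (1 / p) * (2 ^ n : ℝ) ^ (1 / p') = 2 ^ n := by
  rw [← Real.rpow_add (by positivity), one_div, one_div, hpp.inv_add_inv_eq_one, Real.rpow_one]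

lemma integral_hf_mul_hf {p p' : ℝ} (hpp : p.HolderConjugate p') (i j : Idx) :
    ∫ t, hf p i t * hf p' j t ∂μ01 = if i = j then 1 else 0 := by
  rcases i with _ | ⟨n, k⟩ <;> rcases j with _ | ⟨m, l⟩
  · simp only [hf, chi_mul_self, if_true]
    rw [integral_chi (by norm_num)]; norm_num
  · simp only [hf, reduceCtorEq, if_false]
    simp_rw [mul_left_comm (chi 0 0 _)]
    rw [integral_const_mul, integral_chi_mul_hh' (Nat.zero_le _) l.2, mul_zero]
  · simp only [hf, reduceCtorEq, if_false]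
    simp_rw [mul_assoc, mul_comm (hh n k _)]
    rw [integral_const_mul, integral_chi_mul_hh' (Nat.zero_le _) k.2, mul_zero]
  · simp only [hf]
    simp_rw [mul_mul_mul_comm _ (hh n k _)]
    rw [integral_const_mul]
    rcases lt_trichotomy n m with h | h | h
    · rw [integral_hh_mul_hh_lt h l.2, mul_zero, if_neg]
      intro h'
      simp only [Option.some.injEq, Sigma.mk.injEq] at h'
      omega
    · subst h
      by_cases hkl : k = l
      · subst hkl
        simp only [hh_mul_self, if_true]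
        rw [integral_chi k.2, rpow_mul_rpow_conj hpp]
        field_simp
      · have : (fun t => hh n k t * hh n l t) = fun _ => 0 := by
          funext t
          rw [← chi_mul_hh n k, ← chi_mul_hh n l, mul_mul_mul_comm,
            chi_mul_ne (fun h => hkl (Fin.ext h)), zero_mul]
        rw [this, if_neg (by simpa using hkl)]
        simp
    · simp_rw [mul_comm (hh n k _)]
      rw [integral_hh_mul_hh_lt h k.2, mul_zero, if_neg]
      intro h'
      simp only [Option.some.injEq, Sigma.mk.injEq] at h'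
      omega

/-- the first `N` levels. -/
def JN (N : ℕ) : Finset Idx := insertNone ((range N).sigma fun n => (univ : Finset (Fin (2 ^ n))))

lemma sum_JN {M : Type*} [AddCommMonoid M] (N : ℕ) (a0 : M) (a : ℕ → ℕ → M) (φ : Idx → M)
    (h0 : φ none = a0) (h : ∀ n (k : Fin (2 ^ n)), φ (some ⟨n, k⟩) = a n k) :
    ∑ j ∈ JN N, φ j = a0 + ∑ n ∈ range N, ∑ k ∈ range (2 ^ n), a n k := by
  unfold JN
  rw [Finset.sum_insertNone, h0, Finset.sum_sigma]
  congr 1
  refine Finset.sum_congr rfl fun n _ => ?_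
  rw [← Fin.sum_univ_eq_sum_range]
  exact Finset.sum_congr rfl fun k _ => h n k

/-- level of an index. -/
def lvl : Idx → ℕ
  | none => 0
  | some ⟨n, _⟩ => n

lemma mem_JN {N : ℕ} {j : Idx} (h : lvl j < N) : j ∈ JN N := by
  rcases j with _ | ⟨n, k⟩
  · simp [JN]
  · simpa [JN, lvl] using h

lemma exists_subset_JN (J : Finset Idx) : ∃ N, J ⊆ JN N :=
  ⟨J.sup lvl + 1, fun _ hj => mem_JN (Nat.lt_succ_of_le (Finset.le_sup (f := lvl) hj))⟩

lemma abs_hf (q : ℝ) (j : Idx) (t : ℝ) :
    |hf q j t| = 0 ∨ |hf q j t| = ((2 : ℝ) ^ (1 / q)) ^ lvl j := by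
  rcases j with _ | ⟨n, k⟩
  · simp only [hf, lvl, pow_zero]
    rcases chi_cases 0 0 t with h | h <;> simp [h]
  · simp only [hf, lvl, abs_mul, abs_hh]
    rcases chi_cases n k t with h | h
    · simp [h]
    · right
      rw [h, mul_one, abs_of_nonneg (by positivity), ← Real.rpow_natCast, ← Real.rpow_natCast,
        ← Real.rpow_mul (by norm_num), ← Real.rpow_mul (by norm_num), mul_comm]

/-- constant in the democracy estimate. -/
noncomputable def cD (q : ℝ) : ℝ := 1 + (2 : ℝ) ^ (1 / q) / ((2 : ℝ) ^ (1 / q) - 1)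

lemma one_lt_rho {q : ℝ} (hq : 0 < q) : 1 < (2 : ℝ) ^ (1 / q) :=
  Real.one_lt_rpow (by norm_num) (by positivity)

lemma cD_pos {q : ℝ} (hq : 0 < q) : 0 < cD q := by
  have := one_lt_rho hq
  unfold cD
  have : 0 < (2 : ℝ) ^ (1 / q) - 1 := by linarith
  positivity

lemma sum_abs_hf_JN {q : ℝ} (hq : 0 < q) (L : ℕ) (t : ℝ) :
    ∑ j ∈ JN (L + 1), |hf q j t| ≤ cD q * ((2 : ℝ) ^ (1 / q)) ^ L := by
  have hρ := one_lt_rho hq
  set ρ := (2 : ℝ) ^ (1 / q) with hρdef
  rw [sum_JN (L + 1) (chi 0 0 t) (fun n k => ρ ^ n * chi n k t) _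
    (abs_of_nonneg (chi_nonneg _ _ _)) (fun n k => by
      simp only [hf, abs_mul, abs_hh]
      rw [abs_of_nonneg (by positivity), hρdef, ← Real.rpow_natCast, ← Real.rpow_natCast,
        ← Real.rpow_mul (by norm_num), ← Real.rpow_mul (by norm_num), mul_comm (n : ℝ)])]
  have h1 : ∑ n ∈ range (L + 1), ∑ k ∈ range (2 ^ n), ρ ^ n * chi n k t ≤
      ∑ n ∈ range (L + 1), ρ ^ n := by
    refine Finset.sum_le_sum fun n _ => ?_
    rw [← Finset.mul_sum, sum_chi]
    exact mul_le_of_le_one_right (by positivity) (chi_le_one _ _ _)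
  rw [geom_sum_eq hρ.ne'] at h1
  have h2 : (ρ ^ (L + 1) - 1) / (ρ - 1) ≤ ρ / (ρ - 1) * ρ ^ L := by
    rw [div_mul_eq_mul_div, ← pow_succ']
    gcongr
    linarith
  have h3 : 1 ≤ ρ ^ L := one_le_pow₀ hρ.le
  have h4 := chi_le_one 0 0 t
  unfold cD
  rw [← hρdef]
  linarith

lemma sum_abs_hf_rpow_le {q : ℝ} (hq : 0 < q) (A : Finset Idx) (t : ℝ) :
    (∑ j ∈ A, |hf q j t|) ^ q ≤ cD q ^ q * ∑ j ∈ A, |hf q j t| ^ q := by
  have hC := cD_pos hq
  set A' := A.filter (fun j => |hf q j t| ≠ 0) with hA'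
  have h1 : ∑ j ∈ A, |hf q j t| = ∑ j ∈ A', |hf q j t| := (Finset.sum_filter_ne_zero A).symm
  rcases A'.eq_empty_or_nonempty with h | h
  · rw [h1, h, Finset.sum_empty, Real.zero_rpow hq.ne']
    positivity
  · obtain ⟨j₀, hj₀, hmax⟩ := Finset.exists_max_image A' lvl h
    have h2 : |hf q j₀ t| = ((2 : ℝ) ^ (1 / q)) ^ lvl j₀ :=
      (abs_hf q j₀ t).resolve_left (Finset.mem_filter.1 hj₀).2
    have h3 : ∑ j ∈ A', |hf q j t| ≤ cD q * |hf q j₀ t| := by
      rw [h2]
      refine le_trans (Finset.sum_le_sum_of_subset_of_nonneg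
        (fun j hj => mem_JN (Nat.lt_succ_of_le (hmax j hj))) (fun _ _ _ => abs_nonneg _))
        (sum_abs_hf_JN hq _ t)
    rw [h1]
    refine (Real.rpow_le_rpow (by positivity) h3 hq.le).trans ?_
    rw [Real.mul_rpow hC.le (abs_nonneg _)]
    gcongr
    exact Finset.single_le_sum (f := fun j => |hf q j t| ^ q) (fun _ _ => by positivity)
      (Finset.mem_filter.1 hj₀).1

lemma abs_hf_rpow {q : ℝ} (hq : 0 < q) (j : Idx) :
    Integrable (fun t => |hf q j t| ^ q) μ01 ∧ ∫ t, |hf q j t| ^ q ∂μ01 = 1 := by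
  rcases j with _ | ⟨n, k⟩
  · have : (fun t => |hf q none t| ^ q) = chi 0 0 := by
      funext t
      simp only [hf]
      rcases chi_cases 0 0 t with h | h <;> simp [h, hq.ne']
    rw [this]
    exact ⟨integrable_chi _ _, by rw [integral_chi (by norm_num)]; norm_num⟩
  · have : (fun t => |hf q (some ⟨n, k⟩) t| ^ q) = fun t => 2 ^ n * chi n k t := by
      funext t
      simp only [hf, abs_mul, abs_hh]
      rcases chi_cases n k t with h | h
      · simp [h, hq.ne']
      · rw [h, mul_one, mul_one, abs_of_nonneg (by positivity), ← Real.rpow_mul (by positivity),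
          one_div_mul_cancel hq.ne', Real.rpow_one]
    rw [this]
    refine ⟨(integrable_chi _ _).const_mul _, ?_⟩
    rw [integral_const_mul, integral_chi k.2]
    field_simp

end Pool.Agent.P.MP_f77f75_an
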