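import Pool.Agent.P.MP_f77f75_an.Haar1
import Pool.Agent.P.MP_f77f75_an.Abstract

/-!
The Haar system in `L_p[0,1]`: pairing, unconditionality, democracy, density.
-/

set_option autoImplicit false

namespace Pool.Agent.P.MP_f77f75_an

open Finset MeasureTheory

variable {𝕜 : Type} [RCLike 𝕜]

lemma coe_ind (q a b : ℝ) : ⇑(ind 𝕜 q a b) =ᵐ[μ01] (Set.Ico a b).indicator fun _ => (1 : 𝕜) :=
  indicatorConstLp_coeFn

lemma coe_ind_chi (q : ℝ) (n k : ℕ) {a b : ℝ} (ha : a = (k : ℝ) / 2 ^ n)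
    (hb : b = ((k : ℝ) + 1) / 2 ^ n) :
    ⇑(ind 𝕜 q a b) =ᵐ[μ01] fun t => ((chi n k t : ℝ) : 𝕜) := by
  subst ha hb
  filter_upwards [coe_ind (𝕜 := 𝕜) q ((k : ℝ) / 2 ^ n) (((k : ℝ) + 1) / 2 ^ n)] with t ht
  rw [ht]
  unfold chi dI
  by_cases h : t ∈ Set.Ico ((k : ℝ) / 2 ^ n) (((k : ℝ) + 1) / 2 ^ n)
  · simp [Set.indicator_of_mem h]
  · simp [Set.indicator_of_notMem h]

lemma weight_eq (q : ℝ) (n : ℕ) : (1 / 2 ^ n : ℝ) ^ (-1 / q) = (2 ^ n : ℝ) ^ (1 / q) := by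
  rw [one_div, Real.inv_rpow (by positivity), ← Real.rpow_neg (by positivity)]
  congr 1; ring

lemma coe_haar (q : ℝ) (j : Idx) : ⇑(haar 𝕜 q j) =ᵐ[μ01] fun t => ((hf q j t : ℝ) : 𝕜) := by
  rcases j with _ | ⟨n, k⟩
  · exact coe_ind_chi q 0 0 (by simp) (by simp)
  · have h1 := coe_ind_chi (𝕜 := 𝕜) q (n + 1) (2 * k) (a := (k : ℕ) / 2 ^ n)
      (b := ((k : ℕ) + 1 / 2) / 2 ^ n) (by push_cast; field_simp; ring)
      (by push_cast; field_simp; ring)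
    have h2 := coe_ind_chi (𝕜 := 𝕜) q (n + 1) (2 * k + 1) (a := ((k : ℕ) + 1 / 2) / 2 ^ n)
      (b := ((k : ℕ) + 1) / 2 ^ n) (by push_cast; field_simp; ring)
      (by push_cast; field_simp; ring)
    simp only [haar, hf]
    filter_upwards [h1, h2, Lp.coeFn_smul ((((1 / 2 ^ n : ℝ) ^ (-1 / q) : ℝ)) : 𝕜)
      (ind 𝕜 q ((k : ℕ) / 2 ^ n) (((k : ℕ) + 1 / 2) / 2 ^ n) -
        ind 𝕜 q (((k : ℕ) + 1 / 2) / 2 ^ n) (((k : ℕ) + 1) / 2 ^ n)),
      Lp.coeFn_sub (ind 𝕜 q ((k : ℕ) / 2 ^ n) (((k : ℕ) + 1 / 2) / 2 ^ n))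
        (ind 𝕜 q (((k : ℕ) + 1 / 2) / 2 ^ n) (((k : ℕ) + 1) / 2 ^ n))] with t a1 a2 a3 a4
    rw [a3, Pi.smul_apply, a4, Pi.sub_apply, a1, a2, weight_eq, hh, smul_eq_mul]
    push_cast; rfl

lemma Lq_norm_nonneg {p : ℝ} (f : Lq 𝕜 p) : 0 ≤ ‖f‖ := by
  rw [Lp.norm_def]; exact ENNReal.toReal_nonneg

lemma norm_eq_integral {p : ℝ} (hp : 0 < p) (f : Lq 𝕜 p) :
    ‖f‖ = (∫ t, ‖f t‖ ^ p ∂μ01) ^ (1 / p) := by
  rw [Lp.norm_def, (Lp.memLp f).eLpNorm_eq_integral_rpow_norm (by simpa using hp)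
    ENNReal.ofReal_ne_top, ENNReal.toReal_ofReal hp.le, ENNReal.toReal_ofReal, one_div]
  exact Real.rpow_nonneg (integral_nonneg fun t => by positivity) _

lemma norm_rpow_eq_integral {p : ℝ} (hp : 0 < p) (f : Lq 𝕜 p) :
    ‖f‖ ^ p = ∫ t, ‖f t‖ ^ p ∂μ01 := by
  rw [norm_eq_integral hp, ← Real.rpow_mul (integral_nonneg fun t => by positivity),
    one_div_mul_cancel hp.ne', Real.rpow_one]

lemma integrable_norm_rpow {p : ℝ} (hp : 0 < p) (f : Lq 𝕜 p) :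
    Integrable (fun t => ‖f t‖ ^ p) μ01 := by
  have := (Lp.memLp f).integrable_norm_rpow (by simpa using hp) ENNReal.ofReal_ne_top
  rwa [ENNReal.toReal_ofReal hp.le] at this

lemma integrable_Lq {p : ℝ} (hp : 1 ≤ p) (f : Lq 𝕜 p) : Integrable f μ01 :=
  (Lp.memLp f).integrable (by simpa using hp)

lemma integrable_pair {p p' : ℝ} (hpp : p.HolderConjugate p') (f : Lq 𝕜 p) (g : Lq 𝕜 p') :
    Integrable (fun t => f t * g t) μ01 := by
  have := hpp.ennrealOfReal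
  exact (Lp.memLp f).integrable_mul (Lp.memLp g)

lemma norm_pairing_le {p p' : ℝ} (hpp : p.HolderConjugate p') (f : Lq 𝕜 p) (g : Lq 𝕜 p') :
    ‖pairing f g‖ ≤ ‖f‖ * ‖g‖ := by
  unfold pairing
  refine (norm_integral_le_integral_norm _).trans ?_
  simp_rw [norm_mul]
  rw [norm_eq_integral hpp.pos, norm_eq_integral hpp.symm.pos]
  exact integral_mul_norm_le_Lp_mul_Lq hpp (Lp.memLp f) (Lp.memLp g)

lemma pairing_comm {p p' : ℝ} (f : Lq 𝕜 p) (g : Lq 𝕜 p') : pairing f g = pairing g f := by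
  unfold pairing
  simp_rw [mul_comm]

lemma pairing_add_left {p p' : ℝ} (hpp : p.HolderConjugate p') (f f' : Lq 𝕜 p) (g : Lq 𝕜 p') :
    pairing (f + f') g = pairing f g + pairing f' g := by
  unfold pairing
  rw [← integral_add (integrable_pair hpp f g) (integrable_pair hpp f' g)]
  refine integral_congr_ae ?_
  filter_upwards [Lp.coeFn_add f f'] with t ht
  rw [ht, Pi.add_apply, add_mul]

lemma pairing_smul_left {p p' : ℝ} (c : 𝕜) (f : Lq 𝕜 p) (g : Lq 𝕜 p') :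
    pairing (c • f) g = c • pairing f g := by
  unfold pairing
  rw [← integral_smul]
  refine integral_congr_ae ?_
  filter_upwards [Lp.coeFn_smul c f] with t ht
  rw [ht, Pi.smul_apply, smul_eq_mul, smul_eq_mul, mul_assoc]

/-- the pairing as a bilinear map. -/
noncomputable def pairB {p p' : ℝ} (hpp : p.HolderConjugate p') : Lq 𝕜 p →ₗ[𝕜] Lq 𝕜 p' →ₗ[𝕜] 𝕜 :=
  LinearMap.mk₂ 𝕜 pairing (pairing_add_left hpp) pairing_smul_left
    (fun f g g' => by
      rw [pairing_comm, pairing_add_left hpp.symm, pairing_comm g, pairing_comm g'])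
    (fun c f g => by rw [pairing_comm, pairing_smul_left, pairing_comm g])

lemma pairing_haar {p : ℝ} (q : ℝ) (f : Lq 𝕜 p) (j : Idx) :
    pairing f (haar 𝕜 q j) = ∫ t, hf q j t • f t ∂μ01 := by
  unfold pairing
  refine integral_congr_ae ?_
  filter_upwards [coe_haar (𝕜 := 𝕜) q j] with t ht
  rw [ht, RCLike.real_smul_eq_coe_mul, mul_comm]

lemma biorth_haar {p p' : ℝ} (hpp : p.HolderConjugate p') (i j : Idx) :
    pairing (haar 𝕜 p i) (haar 𝕜 p' j) = if i = j then 1 else 0 := by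
  have h := integral_hf_mul_hf hpp i j
  have : pairing (haar 𝕜 p i) (haar 𝕜 p' j) = ((∫ t, hf p i t * hf p' j t ∂μ01 : ℝ) : 𝕜) := by
    unfold pairing
    rw [← integral_ofReal]
    refine integral_congr_ae ?_
    filter_upwards [coe_haar (𝕜 := 𝕜) p i, coe_haar (𝕜 := 𝕜) p' j] with t h1 h2
    rw [h1, h2]; push_cast; rfl
  rw [this, h]
  split_ifs <;> simp

/-- dyadic averages. -/
noncomputable def arr (f : ℝ → 𝕜) (n k : ℕ) : 𝕜 := 2 ^ n * ∫ t, chi n k t • f t ∂μ01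

lemma mart_arr {f : ℝ → 𝕜} (hf : Integrable f μ01) : Mart (arr f) := by
  intro n k
  unfold arr
  rw [integral_chi_split n k hf]
  ring

lemma norm_coef_some {f : ℝ → 𝕜} (hi : Integrable f μ01) (q : ℝ) (n : ℕ) (k : Fin (2 ^ n)) :
    ‖∫ t, hf q (some ⟨n, k⟩) t • f t ∂μ01‖ = (2 ^ n : ℝ) ^ (1 / q) / 2 ^ n * ‖hd (arr f) n k‖ := by
  have h1 : ∫ t, hf q (some ⟨n, k⟩) t • f t ∂μ01 =
      ((2 ^ n : ℝ) ^ (1 / q) / 2 ^ n) • hd (arr f) n k := by
    simp only [hf, hh, mul_smul, sub_smul]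
    rw [integral_smul, integral_sub (integrable_chi_smul _ _ hi) (integrable_chi_smul _ _ hi),
      div_eq_mul_inv _ ((2 : ℝ) ^ n), mul_smul]
    congr 1
    rw [RCLike.real_smul_eq_coe_mul]
    unfold hd arr
    push_cast
    field_simp
    ring
  rw [h1, norm_smul, Real.norm_of_nonneg (by positivity)]

lemma sum_arr_le {p : ℝ} (hp : 1 ≤ p) (f : Lq 𝕜 p) (N : ℕ) :
    ∑ k ∈ range (2 ^ N), ‖arr f N k‖ ^ p ≤ 2 ^ N * ‖f‖ ^ p := by
  have hp0 : 0 < p := by linarith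
  have h1 := (integrable_Lq hp f).norm
  have h2 := integrable_norm_rpow hp0 f
  rw [norm_rpow_eq_integral hp0]
  refine le_trans (Finset.sum_le_sum (g := fun k => 2 ^ N * ∫ t, chi N k t • ‖f t‖ ^ p ∂μ01)
    fun k hk => ?_) ?_
  · refine le_trans (Real.rpow_le_rpow (norm_nonneg _) ?_ hp0.le)
      (jensen_dI hp (Finset.mem_range.1 hk) (fun t => norm_nonneg (f t)) h1 h2)
    unfold arr
    rw [norm_mul, norm_pow, RCLike.norm_two]
    gcongr
    refine (norm_integral_le_integral_norm _).trans (le_of_eq ?_)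
    congr 1
    funext t
    rw [norm_smul, Real.norm_of_nonneg (chi_nonneg _ _ _), smul_eq_mul]
  · rw [← Finset.mul_sum]
    gcongr
    exact sum_integral_chi_le N (fun t => by positivity) h2

lemma paley_two_le {p p' : ℝ} (hpp : p.HolderConjugate p') (hp : 2 ≤ p) (J : Finset Idx)
    (f : Lq 𝕜 p) (g : Lq 𝕜 p') :
    ∑ j ∈ J, ‖pairing f (haar 𝕜 p' j)‖ * ‖pairing g (haar 𝕜 p j)‖ ≤
      cC (p / 2 - 1) ^ (1 / p) * ‖f‖ * ‖g‖ := by
  obtain ⟨N, hN⟩ := exists_subset_JN J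
  have hfi := integrable_Lq hpp.lt.le f
  have hgi := integrable_Lq hpp.symm.lt.le g
  refine le_trans (Finset.sum_le_sum_of_subset_of_nonneg hN (fun _ _ _ => by positivity)) ?_
  rw [sum_JN N (‖arr f 0 0‖ * ‖arr g 0 0‖)
    (fun n k => ‖hd (arr f) n k‖ * ‖hd (arr g) n k‖ / 2 ^ n)]
  · exact discrete_paley hpp hp (mart_arr hfi) (mart_arr hgi) N (Lq_norm_nonneg _) (Lq_norm_nonneg _)
      (sum_arr_le hpp.lt.le f N) (sum_arr_le hpp.symm.lt.le g N)
  · simp [pairing_haar, hf, arr]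
  · intro n k
    rw [pairing_haar, pairing_haar, norm_coef_some hfi, norm_coef_some hgi]
    have := rpow_mul_rpow_conj hpp n
    have h2 : (2 : ℝ) ^ n ≠ 0 := by positivity
    field_simp
    linear_combination (‖hd (arr f) n k‖ * ‖hd (arr g) n k‖) * this

lemma exists_paley {p p' : ℝ} (hpp : p.HolderConjugate p') : ∃ K, 0 < K ∧
    ∀ (J : Finset Idx) (f : Lq 𝕜 p) (g : Lq 𝕜 p'),
      ∑ j ∈ J, ‖pairing f (haar 𝕜 p' j)‖ * ‖pairing (haar 𝕜 p j) g‖ ≤ K * ‖f‖ * ‖g‖ := by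
  rcases le_or_gt 2 p with hp | hp
  · refine ⟨_, Real.rpow_pos_of_pos (cC_pos (q := p / 2 - 1) (by linarith)) (1 / p),
      fun J f g => ?_⟩
    simp_rw [pairing_comm (haar 𝕜 p _) g]
    exact paley_two_le hpp hp J f g
  · have hp' : 2 ≤ p' := by
      have h1 := hpp.inv_add_inv_eq_one
      have h2 : (2 : ℝ)⁻¹ ≤ p⁻¹ := inv_anti₀ hpp.pos hp.le
      have h3 : p'⁻¹ ≤ 2⁻¹ := by linarith
      exact (inv_le_inv₀ hpp.symm.pos (by norm_num)).1 h3
    refine ⟨_, Real.rpow_pos_of_pos (cC_pos (q := p' / 2 - 1) (by linarith)) (1 / p'),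
      fun J f g => ?_⟩
    simp_rw [pairing_comm (haar 𝕜 p _) g, mul_comm ‖pairing f _‖]
    rw [mul_right_comm]
    exact paley_two_le hpp.symm hp' J g f

lemma democracy {q : ℝ} (hq : 0 < q) (A : Finset Idx) (σ : Idx → 𝕜) (hσ : ∀ j, ‖σ j‖ ≤ 1) :
    ‖∑ j ∈ A, σ j • haar 𝕜 q j‖ ≤ cD q * (A.card : ℝ) ^ (1 / q) := by
  have hC := cD_pos hq
  have h1 : ∀ᵐ t ∂μ01, ∀ j : Idx, (σ j • haar 𝕜 q j) t = σ j * ((hf q j t : ℝ) : 𝕜) := by
    rw [ae_all_iff]
    intro j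
    filter_upwards [Lp.coeFn_smul (σ j) (haar 𝕜 q j), coe_haar (𝕜 := 𝕜) q j] with t a1 a2
    rw [a1, Pi.smul_apply, a2, smul_eq_mul]
  have h2 : ∫ t, ‖(∑ j ∈ A, σ j • haar 𝕜 q j) t‖ ^ q ∂μ01 ≤
      ∫ t, cD q ^ q * ∑ j ∈ A, |hf q j t| ^ q ∂μ01 := by
    refine integral_mono_ae (integrable_norm_rpow hq _)
      ((integrable_finsetSum _ fun j _ => (abs_hf_rpow hq j).1).const_mul _) ?_
    filter_upwards [h1, Lp.coeFn_fun_finsetSum A (fun j => σ j • haar 𝕜 q j)] with t a1 a2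
    refine le_trans (Real.rpow_le_rpow (norm_nonneg _) ?_ hq.le) (sum_abs_hf_rpow_le hq A t)
    rw [a2]
    refine (norm_sum_le _ _).trans (Finset.sum_le_sum fun j _ => ?_)
    rw [a1, norm_mul, RCLike.norm_ofReal]
    exact mul_le_of_le_one_left (abs_nonneg _) (hσ j)
  rw [integral_const_mul, integral_finsetSum _ (fun j _ => (abs_hf_rpow hq j).1),
    Finset.sum_congr rfl (fun j _ => (abs_hf_rpow hq j).2)] at h2
  simp only [Finset.sum_const, nsmul_eq_mul, mul_one] at h2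
  rw [norm_eq_integral hq]
  refine (Real.rpow_le_rpow (integral_nonneg fun t => by positivity) h2 (by positivity)).trans
    (le_of_eq ?_)
  rw [Real.mul_rpow (by positivity) (by positivity), ← Real.rpow_mul hC.le,
    mul_one_div_cancel hq.ne', Real.rpow_one]

lemma norming_Lq {p p' : ℝ} (hpp : p.HolderConjugate p') (f : Lq 𝕜 p) (M : ℝ) (hM : 0 ≤ M)
    (h : ∀ g : Lq 𝕜 p', ‖pairing f g‖ ≤ M * ‖g‖) : ‖f‖ ≤ M := by
  have hp := hpp.pos
  have hp' := hpp.symm.pos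
  have hp1 := hpp.lt
  let g₀ : ℝ → 𝕜 := fun t => (starRingEnd 𝕜) (f t) * ((‖f t‖ ^ (p - 2) : ℝ) : 𝕜)
  have hn : ∀ t, ‖g₀ t‖ = ‖f t‖ ^ (p - 1) := fun t => by
    simp only [g₀, norm_mul, RCLike.norm_conj, RCLike.norm_ofReal]
    rw [abs_of_nonneg (by positivity), ← Real.rpow_one_add' (norm_nonneg _) (by linarith)]
    congr 1; ring
  have hn' : ∀ t, ‖g₀ t‖ ^ p' = ‖f t‖ ^ p := fun t => by
    rw [hn, ← Real.rpow_mul (norm_nonneg _), hpp.sub_one_mul_conj]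
  have hmul : ∀ t, f t * g₀ t = ((‖f t‖ ^ p : ℝ) : 𝕜) := fun t => by
    simp only [g₀]
    rw [← mul_assoc, RCLike.mul_conj, ← RCLike.ofReal_pow, ← RCLike.ofReal_mul, ← Real.rpow_two,
      ← Real.rpow_add' (norm_nonneg _) (by linarith)]
    congr 2; ring
  have hmeas : AEStronglyMeasurable g₀ μ01 := by
    have h1 := Lp.aestronglyMeasurable f
    refine (RCLike.continuous_conj.comp_aestronglyMeasurable h1).mul ?_
    refine RCLike.continuous_ofReal.comp_aestronglyMeasurable ?_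
    exact (h1.norm.aemeasurable.pow_const (p - 2)).aestronglyMeasurable
  have hmem : MemLp g₀ (ENNReal.ofReal p') μ01 := by
    rw [← integrable_norm_rpow_iff hmeas (by simpa using hp') ENNReal.ofReal_ne_top,
      ENNReal.toReal_ofReal hp'.le]
    simp_rw [hn']
    exact integrable_norm_rpow hp f
  let g : Lq 𝕜 p' := hmem.toLp g₀
  have hg : ⇑g =ᵐ[μ01] g₀ := hmem.coeFn_toLp
  have h1 : ‖g‖ = ‖f‖ ^ (p - 1) := by
    rw [norm_eq_integral hp']
    have : ∫ t, ‖g t‖ ^ p' ∂μ01 = ‖f‖ ^ p := by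
      rw [norm_rpow_eq_integral hp]
      refine integral_congr_ae ?_
      filter_upwards [hg] with t ht
      rw [ht, hn']
    rw [this, ← Real.rpow_mul (Lq_norm_nonneg _)]
    congr 1
    rw [← hpp.div_conj_eq_sub_one]; ring
  have h2 : pairing f g = ((‖f‖ ^ p : ℝ) : 𝕜) := by
    unfold pairing
    rw [norm_rpow_eq_integral hp, ← integral_ofReal]
    refine integral_congr_ae ?_
    filter_upwards [hg] with t ht
    rw [ht, hmul]
  have h3 := h g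
  rw [h1, h2, RCLike.norm_ofReal, abs_of_nonneg (Real.rpow_nonneg (Lq_norm_nonneg f) _)] at h3
  rcases (Lq_norm_nonneg f).eq_or_lt with h0 | h0
  · rw [← h0]; exact hM
  · have h4 : ‖f‖ ^ p = ‖f‖ * ‖f‖ ^ (p - 1) := by
      rw [← Real.rpow_one_add' h0.le (by linarith)]; congr 1; ring
    rw [h4] at h3
    exact le_of_mul_le_mul_right h3 (Real.rpow_pos_of_pos h0 _)

/-- dyadic indicators in `L_q`. -/
noncomputable def indD (𝕜 : Type) [RCLike 𝕜] (q : ℝ) (n k : ℕ) : Lq 𝕜 q :=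
  ind 𝕜 q ((k : ℝ) / 2 ^ n) (((k : ℝ) + 1) / 2 ^ n)

lemma coe_indD (q : ℝ) (n k : ℕ) : ⇑(indD 𝕜 q n k) =ᵐ[μ01] fun t => ((chi n k t : ℝ) : 𝕜) :=
  coe_ind_chi q n k rfl rfl

lemma indD_split (q : ℝ) (n k : ℕ) :
    indD 𝕜 q n k = indD 𝕜 q (n + 1) (2 * k) + indD 𝕜 q (n + 1) (2 * k + 1) := by
  refine Lp.ext ?_
  filter_upwards [coe_indD (𝕜 := 𝕜) q n k, coe_indD (𝕜 := 𝕜) q (n + 1) (2 * k),
    coe_indD (𝕜 := 𝕜) q (n + 1) (2 * k + 1),
    Lp.coeFn_add (indD 𝕜 q (n + 1) (2 * k)) (indD 𝕜 q (n + 1) (2 * k + 1))] with t a1 a2 a3 a4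
  rw [a4, Pi.add_apply, a1, a2, a3, chi_split]
  push_cast; rfl

lemma haar_some_eq (q : ℝ) (n : ℕ) (k : Fin (2 ^ n)) :
    haar 𝕜 q (some ⟨n, k⟩) = (((2 ^ n : ℝ) ^ (1 / q) : ℝ) : 𝕜) •
      (indD 𝕜 q (n + 1) (2 * k) - indD 𝕜 q (n + 1) (2 * k + 1)) := by
  simp only [haar, indD, weight_eq]
  congr 3 <;> push_cast <;> field_simp <;> ring

lemma indD_mem_span (q : ℝ) (n : ℕ) : ∀ k, k < 2 ^ n →
    indD 𝕜 q n k ∈ Submodule.span 𝕜 (Set.range (haar 𝕜 q)) := by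
  induction n with
  | zero =>
    intro k hk
    obtain rfl : k = 0 := by omega
    refine Submodule.subset_span ⟨none, ?_⟩
    simp [haar, indD]
  | succ n ih =>
    intro k hk
    have hj : k / 2 < 2 ^ n := by rw [pow_succ] at hk; omega
    have h1 := ih _ hj
    rw [indD_split] at h1
    have h2 : indD 𝕜 q (n + 1) (2 * (k / 2)) - indD 𝕜 q (n + 1) (2 * (k / 2) + 1) ∈
        Submodule.span 𝕜 (Set.range (haar 𝕜 q)) := by
      have h3 : haar 𝕜 q (some ⟨n, ⟨k / 2, hj⟩⟩) ∈ Submodule.span 𝕜 (Set.range (haar 𝕜 q)) :=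
        Submodule.subset_span ⟨_, rfl⟩
      rw [haar_some_eq] at h3
      refine (Submodule.smul_mem_iff _ ?_).1 h3
      have : (0 : ℝ) < (2 ^ n : ℝ) ^ (1 / q) := by positivity
      exact_mod_cast this.ne'
    rcases Nat.even_or_odd' k with ⟨j, rfl | rfl⟩
    · rw [show 2 * j / 2 = j by omega] at h1 h2
      have h4 := Submodule.add_mem _ h1 h2
      rw [add_add_sub_cancel, ← two_smul 𝕜] at h4
      exact (Submodule.smul_mem_iff _ two_ne_zero).1 h4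
    · rw [show (2 * j + 1) / 2 = j by omega] at h1 h2
      have h4 := Submodule.sub_mem _ h1 h2
      rw [add_sub_sub_cancel, ← two_smul 𝕜] at h4
      exact (Submodule.smul_mem_iff _ two_ne_zero).1 h4

lemma dense_haar {q : ℝ} (hq : 1 ≤ q) (f : Lq 𝕜 q) (ε : ℝ) (hε : 0 < ε) :
    ∃ (J : Finset Idx) (a : Idx → 𝕜), ‖f - ∑ j ∈ J, a j • haar 𝕜 q j‖ ≤ ε := by
  have : Fact (1 ≤ ENNReal.ofReal q) := ⟨by simpa using hq⟩
  obtain ⟨φ, hφ⟩ := (BoundedContinuousFunction.toLp_denseRange 𝕜 μ01 𝕜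
    (p := ENNReal.ofReal q) ENNReal.ofReal_ne_top).exists_dist_lt f (half_pos hε)
  obtain ⟨δ, hδ, hu⟩ := Metric.uniformContinuousOn_iff.1
    ((isCompact_Icc (a := (0 : ℝ)) (b := 1)).uniformContinuousOn_of_continuous
      φ.continuous.continuousOn) (ε / 2) (half_pos hε)
  obtain ⟨n, hn⟩ := exists_pow_lt_of_lt_one hδ (show (1 / 2 : ℝ) < 1 by norm_num)
  set s : Lq 𝕜 q := ∑ k ∈ range (2 ^ n), φ ((k : ℝ) / 2 ^ n) • indD 𝕜 q n k with hs
  have hsmem : s ∈ Submodule.span 𝕜 (Set.range (haar 𝕜 q)) :=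
    Submodule.sum_mem _ fun k hk => Submodule.smul_mem _ _
      (indD_mem_span q n k (Finset.mem_range.1 hk))
  obtain ⟨c, hc⟩ := Finsupp.mem_span_range_iff_exists_finsupp.1 hsmem
  refine ⟨c.support, c, ?_⟩
  have hc' : ∑ j ∈ c.support, c j • haar 𝕜 q j = s := hc
  rw [hc']
  set Φ : Lq 𝕜 q := BoundedContinuousFunction.toLp (ENNReal.ofReal q) μ01 𝕜 φ with hΦ
  have h1 : ‖Φ - s‖ ≤ ε / 2 := by
    have hb : ∀ᵐ t ∂μ01, ‖(Φ - s) t‖ ≤ ε / 2 := by
      have a0 : ∀ᵐ t ∂μ01, t ∈ Set.Ico (0 : ℝ) 1 := by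
        rw [μ01, ← Measure.restrict_congr_set Ico_ae_eq_Icc]
        exact ae_restrict_mem measurableSet_Ico
      have a1 : ∀ᵐ t ∂μ01, ∀ k : ℕ, (φ ((k : ℝ) / 2 ^ n) • indD 𝕜 q n k) t =
          φ ((k : ℝ) / 2 ^ n) * ((chi n k t : ℝ) : 𝕜) := by
        rw [ae_all_iff]
        intro k
        filter_upwards [Lp.coeFn_smul (φ ((k : ℝ) / 2 ^ n)) (indD 𝕜 q n k),
          coe_indD (𝕜 := 𝕜) q n k] with t b1 b2
        rw [b1, Pi.smul_apply, b2, smul_eq_mul]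
      filter_upwards [a0, a1, Lp.coeFn_sub Φ s,
        BoundedContinuousFunction.coeFn_toLp (ENNReal.ofReal q) μ01 𝕜 φ,
        Lp.coeFn_fun_finsetSum (range (2 ^ n))
          (fun k => φ ((k : ℝ) / 2 ^ n) • indD 𝕜 q n k)] with t b0 b1 b2 b3 b4
      have c0 : chi 0 0 t = 1 := by
        rw [chi_eq, if_pos]; simpa using b0
      have c1 : ∑ k ∈ range (2 ^ n), chi n k t = 1 := by rw [sum_chi, c0]
      have c2 : (Φ - s) t = ∑ k ∈ range (2 ^ n),
          (φ t - φ ((k : ℝ) / 2 ^ n)) * ((chi n k t : ℝ) : 𝕜) := by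
        rw [b2, Pi.sub_apply, hΦ, b3, hs, b4]
        simp_rw [b1, sub_mul]
        rw [Finset.sum_sub_distrib, ← Finset.mul_sum]
        congr 1
        rw [← RCLike.ofReal_sum, c1]; simp
      rw [c2]
      refine (norm_sum_le _ _).trans ?_
      have c3 : ∑ k ∈ range (2 ^ n), ‖(φ t - φ ((k : ℝ) / 2 ^ n)) * ((chi n k t : ℝ) : 𝕜)‖ ≤
          ∑ k ∈ range (2 ^ n), ε / 2 * chi n k t := by
        refine Finset.sum_le_sum fun k hk => ?_
        rw [norm_mul, RCLike.norm_ofReal, abs_of_nonneg (chi_nonneg _ _ _)]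
        rw [chi_eq]
        split_ifs with h
        · have h2 : (0 : ℝ) < 2 ^ n := by positivity
          have h3 : (k : ℝ) / 2 ^ n ≤ t := by rw [div_le_iff₀ h2]; linarith [h.1]
          have h4 : t - (k : ℝ) / 2 ^ n < (1 / 2) ^ n := by
            rw [one_div_pow, sub_lt_iff_lt_add, ← add_div, lt_div_iff₀ h2]; linarith [h.2]
          have := hu t ⟨b0.1, b0.2.le⟩ ((k : ℝ) / 2 ^ n) ⟨by positivity, h3.trans b0.2.le⟩
            (by rw [Real.dist_eq, abs_of_nonneg (by linarith)]; linarith)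
          rw [dist_eq_norm] at this
          simpa using this.le
        · simp
      rw [← Finset.mul_sum, c1, mul_one] at c3
      exact c3
    have := Lp.norm_le_of_ae_bound (half_pos hε).le hb
    have hm : measureUnivNNReal μ01 = 1 := by
      simp [measureUnivNNReal]
    rw [hm] at this
    simpa using this
  rw [dist_eq_norm] at hφ
  have h2 := norm_add_le (f - Φ) (Φ - s)
  rw [sub_add_sub_cancel] at h2
  linarith

/-- the Haar system as an abstract system. -/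
noncomputable def haarSys {p p' : ℝ} (hpp : p.HolderConjugate p') [Fact (1 ≤ ENNReal.ofReal p)]
    [Fact (1 ≤ ENNReal.ofReal p')] : Sys 𝕜 (Lq 𝕜 p) (Lq 𝕜 p') Idx where
  p := p
  p' := p'
  hpp := hpp
  B := pairB hpp
  x := haar 𝕜 p
  y := haar 𝕜 p'
  i₀ := none
  C := max (cD p) (cD p')
  K := (exists_paley (𝕜 := 𝕜) hpp).choose
  C_pos := lt_max_of_lt_left (cD_pos hpp.pos)
  K_pos := (exists_paley (𝕜 := 𝕜) hpp).choose_spec.1
  hB := norm_pairing_le hpp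
  biorth := biorth_haar hpp
  demx A σ h := (democracy hpp.pos A σ h).trans
    (mul_le_mul_of_nonneg_right (le_max_left _ _) (by positivity))
  demy A σ h := (democracy hpp.symm.pos A σ h).trans
    (mul_le_mul_of_nonneg_right (le_max_right _ _) (by positivity))
  paley := (exists_paley (𝕜 := 𝕜) hpp).choose_spec.2
  norming := norming_Lq hpp
  dense := dense_haar hpp.lt.le

end Pool.Agent.P.MP_f77f75_an
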