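import Mathlib

/-!
Sequence-level part of the construction: the norm given by flat-topped functionals, and the
property (A) for it and for its dual.
-/

set_option autoImplicit false

namespace Pool.Agent.P.MP_f77f75_an

open Finset

variable {ι : Type*} [DecidableEq ι]

/-- `τ` on `D`, `w` elsewhere. -/
def top (D : Finset ι) (τ : ℝ) (w : ι → ℝ) : ι → ℝ := fun i => if i ∈ D then τ else w i

/-- from monotonicity and the exchange property to the greedy inequality. -/
lemma greedy_of_swap (Q : (ι → ℝ) → Prop)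
    (mono : ∀ u v : ι → ℝ, (∀ i, 0 ≤ u i) → (∀ i, u i ≤ v i) → Q v → Q u)
    (swap : ∀ (w : ι → ℝ) (τ : ℝ) (D E : Finset ι), Disjoint D E → D.card = E.card → E.Nonempty →
      0 ≤ τ → (∀ i, 0 ≤ w i ∧ w i ≤ τ) → (∀ i ∈ D, w i = 0) → (∀ i ∈ E, w i = 0) →
      Q (top D τ w) → Q (top E τ w))
    (u v : ι → ℝ) (hu : ∀ i, 0 ≤ u i) (hv : ∀ i, 0 ≤ v i) (A B : Finset ι)
    (hA : ∀ n ∈ A, ∀ k ∉ A, u k ≤ u n) (hB : B.card ≤ A.card) (huv : ∀ i ∉ B, v i = u i)
    (hQ : Q v) : Q (top A 0 u) := by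
  by_cases hE : (B \ A).Nonempty
  · have hcard : (B \ A).card ≤ (A \ B).card := by
      have h1 := Finset.card_sdiff_add_card_inter B A
      have h2 := Finset.card_sdiff_add_card_inter A B
      rw [Finset.inter_comm] at h2
      omega
    obtain ⟨D, hD, hDc⟩ := Finset.exists_subset_card_eq hcard
    have hAne : A.Nonempty := by
      have := hE.card_pos
      have : D.Nonempty := Finset.card_pos.1 (by omega)
      exact this.mono (hD.trans Finset.sdiff_subset)
    obtain ⟨n, hn, hmin⟩ := Finset.exists_min_image A u hAne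
    set w : ι → ℝ := top (A ∪ B) 0 u with hw
    have hw0 : ∀ i, 0 ≤ w i ∧ w i ≤ u n := by
      intro i
      simp only [hw, top]
      split_ifs with h
      · exact ⟨le_rfl, hu n⟩
      · exact ⟨hu i, hA n hn i (fun h' => h (Finset.mem_union_left _ h'))⟩
    have h1 : Q (top D (u n) w) := by
      refine mono _ v (fun i => ?_) (fun i => ?_) hQ
      · simp only [top]; split_ifs
        · exact hu n
        · exact (hw0 i).1
      · simp only [top]
        split_ifs with h
        · have := Finset.mem_sdiff.1 (hD h)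
          rw [huv i this.2]
          exact hmin i this.1
        · simp only [hw, top]
          split_ifs with h'
          · exact hv i
          · rw [huv i (fun h'' => h' (Finset.mem_union_right _ h''))]
    have h2 : Q (top (B \ A) (u n) w) := by
      refine swap w (u n) D (B \ A) ?_ hDc hE (hu n) hw0 (fun i hi => ?_) (fun i hi => ?_) h1
      · rw [Finset.disjoint_left]
        intro i hi hi'
        exact (Finset.mem_sdiff.1 hi').2 (Finset.mem_sdiff.1 (hD hi)).1
      · simp [hw, top, (Finset.mem_sdiff.1 (hD hi)).1]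
      · simp [hw, top, (Finset.mem_sdiff.1 hi).1]
    refine mono _ _ (fun i => ?_) (fun i => ?_) h2
    · simp only [top]; split_ifs
      · exact le_rfl
      · exact hu i
    · simp only [top, hw]
      by_cases h1 : i ∈ A
      · simp [h1]
      · by_cases h2 : i ∈ B
        · simpa [h1, h2] using hA n hn i h1
        · simp [h1, h2]
  · refine mono _ v (fun i => ?_) (fun i => ?_) hQ
    · simp only [top]; split_ifs
      · exact le_rfl
      · exact hu i
    · simp only [top]
      split_ifs with h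
      · exact hv i
      · rw [huv i (fun h' => hE ⟨i, Finset.mem_sdiff.2 ⟨h', h⟩⟩)]

/-- The data of the construction. -/
structure Setup (ι : Type*) where
  lam : ℕ → ℝ
  ε : ℝ
  G : Finset ι → (ι → ℝ) → Prop
  ε_pos : 0 < ε
  lam_pos : ∀ k, 1 ≤ k → 0 < lam k
  lam_anti : ∀ k l, 1 ≤ k → k ≤ l → lam l ≤ lam k
  lam_grow : ∀ k, 1 ≤ k → 2 * ε * lam k ≤ (k + 1) * lam (k + 1) - k * lam k
  lam_drop : ∀ k, 1 ≤ k → (k + 1) * (lam k - lam (k + 1)) ≤ lam k
  G_mono : ∀ J g g', (∀ i, 0 ≤ g' i) → (∀ i, g' i ≤ g i) → G J g → G J g'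
  G_count : ∀ J g k, 1 ≤ k → (∀ i, 0 ≤ g i) → G J g → ∀ R ⊆ J, (∀ i ∈ R, ε * lam k < g i) → R.card ≤ k

namespace Setup

variable (S : Setup ι)

/-- admissible functionals. -/
def Adm (A J : Finset ι) (g : ι → ℝ) : Prop :=
  A.Nonempty ∧ (∀ i, 0 ≤ g i ∧ g i ≤ S.ε * S.lam A.card) ∧ S.G J g

/-- value of a functional. -/
def val (A J : Finset ι) (g u : ι → ℝ) : ℝ :=
  S.lam A.card * ∑ i ∈ A, u i + ∑ i ∈ J, if i ∈ A then 0 else g i * u i

/-- the norm of `u` is at most `M`. -/
def Bd (u : ι → ℝ) (M : ℝ) : Prop := ∀ A J g, S.Adm A J g → S.val A J g u ≤ M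

lemma val_mono {A J : Finset ι} {g u v : ι → ℝ} (h : S.Adm A J g) (huv : ∀ i, u i ≤ v i) :
    S.val A J g u ≤ S.val A J g v := by
  unfold val
  have hl := S.lam_pos A.card h.1.card_pos
  refine add_le_add (mul_le_mul_of_nonneg_left (Finset.sum_le_sum fun i _ => huv i) hl.le)
    (Finset.sum_le_sum fun i _ => ?_)
  split_ifs
  · exact le_rfl
  · exact mul_le_mul_of_nonneg_left (huv i) (h.2.1 i).1

lemma Bd_mono {u v : ι → ℝ} {M : ℝ} (huv : ∀ i, u i ≤ v i) (h : S.Bd v M) : S.Bd u M :=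
  fun A J g hA => (S.val_mono hA huv).trans (h A J g hA)

lemma insert_top {A J : Finset ι} {g u : ι → ℝ} (h : S.Adm A J g) (hu : ∀ i, 0 ≤ u i) {j : ι}
    (hj : j ∉ A) (hmax : ∀ i, u i ≤ u j) :
    ∃ g', S.Adm (insert j A) J g' ∧ S.val A J g u ≤ S.val (insert j A) J g' u := by
  obtain ⟨hA, hg, hG⟩ := h
  set k := A.card with hk
  have hk1 : 1 ≤ k := hA.card_pos
  have hcard : (insert j A).card = k + 1 := Finset.card_insert_of_notMem hj
  have hl := S.lam_pos k hk1
  have hl' := S.lam_pos (k + 1) (by omega)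
  have hanti := S.lam_anti k (k + 1) hk1 (by omega)
  have hε := S.ε_pos
  set θ := S.ε * S.lam (k + 1) with hθ
  have hθ0 : 0 ≤ θ := by positivity
  refine ⟨fun i => min (g i) θ, ⟨Finset.insert_nonempty _ _, fun i => ?_, ?_⟩, ?_⟩
  · rw [hcard]
    exact ⟨le_min (hg i).1 hθ0, min_le_right _ _⟩
  · exact S.G_mono J g _ (fun i => le_min (hg i).1 hθ0) (fun i => min_le_left _ _) hG
  · unfold val
    rw [hcard, Finset.sum_insert hj, ← hk]
    set t := u j with ht
    have ht0 : 0 ≤ t := hu j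
    set R := J.filter (fun i => θ < g i) with hR
    have hRc : R.card ≤ k + 1 :=
      S.G_count J g (k + 1) (by omega) (fun i => (hg i).1) hG R (Finset.filter_subset _ _)
        (fun i hi => (Finset.mem_filter.1 hi).2)
    have hS : ∑ i ∈ A, u i ≤ k * t := by
      have := Finset.sum_le_card_nsmul A u t (fun i _ => hmax i)
      simpa [nsmul_eq_mul] using this
    have h1 : (∑ i ∈ J, if i ∈ A then 0 else g i * u i) ≤
        (∑ i ∈ J, if i ∈ insert j A then 0 else min (g i) θ * u i) +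
          (∑ i ∈ J, if i = j then S.ε * S.lam k * t else 0) +
          ∑ i ∈ J, if θ < g i then (S.ε * S.lam k - θ) * t else 0 := by
      rw [← Finset.sum_add_distrib, ← Finset.sum_add_distrib]
      refine Finset.sum_le_sum fun i _ => ?_
      have hgi := hg i
      have hui := hu i
      have hmi := hmax i
      have hd : 0 ≤ (S.ε * S.lam k - θ) * t := by
        apply mul_nonneg _ ht0
        rw [hθ]; nlinarith
      by_cases hiA : i ∈ A
      · have hij : i ≠ j := fun h => hj (h ▸ hiA)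
        simp only [hiA, if_true, Finset.mem_insert, or_true, hij, if_false]
        split_ifs <;> linarith
      · by_cases hij : i = j
        · subst hij
          simp only [hiA, if_false, Finset.mem_insert, true_or, if_true]
          have : g i * u i ≤ S.ε * S.lam k * t := mul_le_mul_of_nonneg_right hgi.2 hui
          split_ifs <;> linarith
        · simp only [hiA, if_false, Finset.mem_insert, hij, or_self]
          split_ifs with h
          · rw [min_eq_right h.le]
            have h2 : (g i - θ) * u i ≤ (S.ε * S.lam k - θ) * t :=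
              mul_le_mul (by linarith [hgi.2]) hmi hui (by rw [hθ]; nlinarith)
            linarith
          · rw [min_eq_left (not_lt.1 h)]; linarith
    have h2 : (∑ i ∈ J, if i = j then S.ε * S.lam k * t else 0) ≤ S.ε * S.lam k * t := by
      rw [Finset.sum_ite_eq']
      split_ifs
      · exact le_rfl
      · positivity
    have h3 : (∑ i ∈ J, if θ < g i then (S.ε * S.lam k - θ) * t else 0) ≤ S.ε * S.lam k * t := by
      rw [← Finset.sum_filter, ← hR, Finset.sum_const, nsmul_eq_mul]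
      have hd := S.lam_drop k hk1
      have hRc' : (R.card : ℝ) ≤ k + 1 := by exact_mod_cast hRc
      have h4 : 0 ≤ S.ε * (S.lam k - S.lam (k + 1)) * t := by
        apply mul_nonneg (mul_nonneg hε.le (by linarith)) ht0
      calc (R.card : ℝ) * ((S.ε * S.lam k - θ) * t)
          = R.card * (S.ε * (S.lam k - S.lam (k + 1)) * t) := by rw [hθ]; ring
        _ ≤ (k + 1) * (S.ε * (S.lam k - S.lam (k + 1)) * t) := mul_le_mul_of_nonneg_right hRc' h4
        _ = S.ε * t * ((k + 1) * (S.lam k - S.lam (k + 1))) := by ring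
        _ ≤ S.ε * t * S.lam k := mul_le_mul_of_nonneg_left hd (by positivity)
        _ = S.ε * S.lam k * t := by ring
    have h4 := S.lam_grow k hk1
    have h5 : (S.lam k - S.lam (k + 1)) * ∑ i ∈ A, u i ≤ (S.lam k - S.lam (k + 1)) * (k * t) :=
      mul_le_mul_of_nonneg_left hS (by linarith)
    have h6 : 2 * S.ε * S.lam k * t ≤ ((k + 1) * S.lam (k + 1) - k * S.lam k) * t :=
      mul_le_mul_of_nonneg_right h4 ht0
    nlinarith

lemma Bd_of_superset {u : ι → ℝ} {M τ : ℝ} (hu : ∀ i, 0 ≤ u i ∧ u i ≤ τ) (D : Finset ι)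
    (hD : ∀ i ∈ D, u i = τ)
    (h : ∀ A J g, S.Adm A J g → D ⊆ A → S.val A J g u ≤ M) : S.Bd u M := by
  induction D using Finset.induction_on with
  | empty => exact fun A J g hA => h A J g hA (Finset.empty_subset _)
  | insert j D hj ih =>
    refine ih (fun i hi => hD i (Finset.mem_insert_of_mem hi)) (fun A J g hA hDA => ?_)
    by_cases hjA : j ∈ A
    · exact h A J g hA (Finset.insert_subset hjA hDA)
    · obtain ⟨g', h1, h2⟩ := S.insert_top hA (fun i => (hu i).1) hjA
        (fun i => by rw [hD j (Finset.mem_insert_self _ _)]; exact (hu i).2)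
      exact h2.trans (h _ J g' h1 (Finset.insert_subset_insert _ hDA))

lemma top_bounds {w : ι → ℝ} {τ : ℝ} (hτ : 0 ≤ τ) (hw : ∀ i, 0 ≤ w i ∧ w i ≤ τ) (E : Finset ι) :
    ∀ i, 0 ≤ top E τ w i ∧ top E τ w i ≤ τ := by
  intro i
  simp only [top]
  split_ifs
  · exact ⟨hτ, le_rfl⟩
  · exact hw i

lemma sum_top (A E : Finset ι) (hEA : E ⊆ A) (τ : ℝ) (w : ι → ℝ) :
    ∑ i ∈ A, top E τ w i = E.card * τ + ∑ i ∈ A \ E, w i := by
  rw [← Finset.sum_sdiff hEA, add_comm]
  congr 1
  · rw [Finset.sum_congr rfl (g := fun _ => τ) (fun i hi => by simp [top, hi])]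
    simp
  · exact Finset.sum_congr rfl fun i hi => by simp [top, (Finset.mem_sdiff.1 hi).2]

lemma Bd_swap {M : ℝ} (w : ι → ℝ) (τ : ℝ) (D E : Finset ι) (hDE : D.card = E.card)
    (hE : E.Nonempty) (hτ : 0 ≤ τ) (hw : ∀ i, 0 ≤ w i ∧ w i ≤ τ) (hD0 : ∀ i ∈ D, w i = 0)
    (h : S.Bd (top D τ w) M) : S.Bd (top E τ w) M := by
  refine S.Bd_of_superset (top_bounds hτ hw E) E (fun i hi => by simp [top, hi])
    (fun A J g hA hEA => ?_)
  have hD : D.Nonempty := Finset.card_pos.1 (hDE ▸ hE.card_pos)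
  set A' := (A \ E) ∪ D with hA'
  have hA'ne : A'.Nonempty := hD.mono Finset.subset_union_right
  have hc : A'.card ≤ A.card := by
    have h1 : A'.card ≤ (A \ E).card + D.card := Finset.card_union_le (A \ E) D
    have h2 := Finset.card_sdiff_add_card_eq_card hEA
    omega
  have hl := S.lam_anti A'.card A.card hA'ne.card_pos hc
  have hadm : S.Adm A' J g := ⟨hA'ne, fun i => ⟨(hA.2.1 i).1, (hA.2.1 i).2.trans
    (mul_le_mul_of_nonneg_left hl S.ε_pos.le)⟩, hA.2.2⟩
  refine le_trans ?_ (h A' J g hadm)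
  unfold val
  have hs : ∑ i ∈ A, top E τ w i = ∑ i ∈ A', top D τ w i := by
    rw [sum_top A E hEA, sum_top A' D Finset.subset_union_right, hDE]
    congr 1
    symm
    refine Finset.sum_subset ?_ ?_
    · intro i hi
      simp only [hA', Finset.mem_sdiff, Finset.mem_union] at hi ⊢
      tauto
    · intro i hi hi'
      apply hD0
      simp only [hA', Finset.mem_sdiff, Finset.mem_union] at hi hi'
      tauto
  refine add_le_add ?_ (Finset.sum_le_sum fun i _ => ?_)
  · rw [hs]
    exact mul_le_mul_of_nonneg_right hl (Finset.sum_nonneg fun i _ => (top_bounds hτ hw D i).1)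
  · have hg := (hA.2.1 i).1
    have h0 := mul_nonneg hg (top_bounds hτ hw D i).1
    by_cases hiA : i ∈ A
    · simp only [hiA, if_true]
      split_ifs
      · exact le_rfl
      · exact h0
    · have hiE : i ∉ E := fun h => hiA (hEA h)
      by_cases hiD : i ∈ D
      · have : i ∈ A' := Finset.mem_union_right _ hiD
        simp [hiA, this, top, hiE, hD0 i hiD]
      · have : i ∉ A' := by
          simp only [hA', Finset.mem_sdiff, Finset.mem_union]; tauto
        simp [hiA, this, top, hiE, hiD]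

/-- the dual norm of `s` is at most `M`. -/
def DBd (s : ι → ℝ) (M : ℝ) : Prop :=
  ∀ (J : Finset ι) (a : ι → ℝ), (∀ i, 0 ≤ a i) → (∀ i ∉ J, a i = 0) → S.Bd a 1 →
    ∑ i ∈ J, a i * s i ≤ M

lemma DBd_mono {u v : ι → ℝ} {M : ℝ} (huv : ∀ i, u i ≤ v i) (h : S.DBd v M) : S.DBd u M :=
  fun J a ha hJ hB => (Finset.sum_le_sum fun i _ =>
    mul_le_mul_of_nonneg_left (huv i) (ha i)).trans (h J a ha hJ hB)

/-- water-filling. -/
lemma exists_level (J E : Finset ι) (hE : E.Nonempty) (hEJ : E ⊆ J) (a : ι → ℝ) :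
    ∃ (F : Finset ι) (σ : ℝ), E ⊆ F ∧ F ⊆ J ∧ ∑ i ∈ F, a i = F.card * σ ∧
      (∀ i ∈ J, i ∉ F → a i ≤ σ) ∧ (∀ i ∈ F, i ∉ E → σ ≤ a i) := by
  obtain ⟨F, hF, hmax⟩ := Finset.exists_max_image (J.powerset.filter (fun F => E ⊆ F))
    (fun F => (∑ i ∈ F, a i) / F.card) ⟨E, by simp [hEJ]⟩
  simp only [Finset.mem_filter, Finset.mem_powerset] at hF hmax
  have hFpos : (0 : ℝ) < F.card := by exact_mod_cast (hE.mono hF.2).card_pos
  refine ⟨F, (∑ i ∈ F, a i) / F.card, hF.2, hF.1, by field_simp, fun i hi hiF => ?_,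
    fun i hi hiE => ?_⟩
  · have := hmax (insert i F) ⟨Finset.insert_subset hi hF.1, hF.2.trans (Finset.subset_insert _ _)⟩
    rw [Finset.sum_insert hiF, Finset.card_insert_of_notMem hiF] at this
    push_cast at this
    rw [div_le_div_iff₀ (by positivity) hFpos] at this
    rw [le_div_iff₀ hFpos]
    linarith
  · have hsub : E ⊆ F.erase i := fun x hx => Finset.mem_erase.2 ⟨fun h => hiE (h ▸ hx), hF.2 hx⟩
    have := hmax (F.erase i) ⟨(Finset.erase_subset _ _).trans hF.1, hsub⟩
    have h1 := Finset.add_sum_erase F a hi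
    have h2 : ((F.erase i).card : ℝ) + 1 = F.card := by
      exact_mod_cast Finset.card_erase_add_one hi
    have h3 : (0 : ℝ) < (F.erase i).card := by exact_mod_cast (hE.mono hsub).card_pos
    rw [div_le_div_iff₀ h3 hFpos] at this
    rw [div_le_iff₀ hFpos]
    rw [← h1, ← h2] at this ⊢
    nlinarith

lemma DBd_swap {M : ℝ} (w : ι → ℝ) (τ : ℝ) (D E : Finset ι) (hdis : Disjoint D E)
    (hDE : D.card = E.card)
    (hE : E.Nonempty) (hτ : 0 ≤ τ) (hw : ∀ i, 0 ≤ w i ∧ w i ≤ τ) (hD0 : ∀ i ∈ D, w i = 0)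
    (h : S.DBd (top D τ w) M) : S.DBd (top E τ w) M := by
  intro J a ha hJ hB
  have hD : D.Nonempty := Finset.card_pos.1 (hDE ▸ hE.card_pos)
  have hdis' : ∀ i, i ∈ D → i ∉ E := fun i hi => Finset.disjoint_left.1 hdis hi
  -- remove `D` from the support, add `E`
  set J₁ := (J ∪ E) \ D with hJ₁
  set b : ι → ℝ := top D 0 a with hb
  have hb0 : ∀ i, 0 ≤ b i := fun i => by
    simp only [hb, top]; split_ifs
    · exact le_rfl
    · exact ha i
  have hba : ∀ i, b i ≤ a i := fun i => by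
    simp only [hb, top]; split_ifs
    · exact ha i
    · exact le_rfl
  have hbJ : ∀ i ∉ J₁, b i = 0 := fun i hi => by
    simp only [hb, top]
    split_ifs with h1
    · rfl
    · apply hJ
      simp only [hJ₁, Finset.mem_sdiff, Finset.mem_union] at hi
      tauto
  have hEJ : E ⊆ J₁ := fun i hi => Finset.mem_sdiff.2
    ⟨Finset.mem_union_right _ hi, fun h => hdis' i h hi⟩
  have hBb : S.Bd b 1 := S.Bd_mono hba hB
  have e1 : ∑ i ∈ J, a i * top E τ w i = ∑ i ∈ J₁, b i * top E τ w i := by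
    have e2 : ∑ i ∈ J, a i * top E τ w i = ∑ i ∈ J ∪ J₁, b i * top E τ w i := by
      rw [← Finset.sum_subset (Finset.subset_union_left (s₁ := J) (s₂ := J₁))]
      · refine Finset.sum_congr rfl fun i _ => ?_
        simp only [hb, top]
        by_cases h1 : i ∈ D
        · simp [h1, hdis' i h1, hD0 i h1]
        · simp [h1]
      · intro i _ hi
        have := hba i
        rw [hJ i hi] at this
        rw [le_antisymm this (hb0 i), zero_mul]
    rw [e2, ← Finset.sum_subset (Finset.subset_union_right (s₁ := J) (s₂ := J₁))]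
    intro i _ hi
    rw [hbJ i hi, zero_mul]
  obtain ⟨F, σ, hEF, hFJ, hsum, hlow, hhigh⟩ := exists_level J₁ E hE hEJ b
  have hFpos : (0 : ℝ) < F.card := by exact_mod_cast (hE.mono hEF).card_pos
  have hσ : 0 ≤ σ := by
    have : 0 ≤ (F.card : ℝ) * σ := hsum ▸ Finset.sum_nonneg fun i _ => hb0 i
    exact nonneg_of_mul_nonneg_right this hFpos |> fun h => by
      by_contra hneg
      push Not at hneg
      nlinarith
  set a₁ := top F σ b with ha₁
  have ha₁b : ∀ i, 0 ≤ a₁ i ∧ a₁ i ≤ σ := fun i => by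
    simp only [ha₁, top]
    split_ifs with h1
    · exact ⟨hσ, le_rfl⟩
    · refine ⟨hb0 i, ?_⟩
      by_cases h2 : i ∈ J₁
      · exact hlow i h2 h1
      · have := hbJ i h2
        rw [this]; exact hσ
  have hB₁ : S.Bd a₁ 1 := by
    refine S.Bd_of_superset ha₁b F (fun i hi => by simp [ha₁, top, hi]) (fun A J' g hA hFA => ?_)
    refine le_trans (le_of_eq ?_) (hBb A J' g hA)
    unfold val
    congr 1
    · rw [ha₁, sum_top A F hFA, ← hsum, add_comm, Finset.sum_sdiff hFA]
    · refine Finset.sum_congr rfl fun i _ => ?_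
      split_ifs with h1
      · rfl
      · have : i ∉ F := fun h => h1 (hFA h)
        simp [ha₁, top, this]
  have e3 : ∑ i ∈ J₁, b i * top E τ w i ≤ ∑ i ∈ J₁, a₁ i * top E τ w i := by
    rw [← sub_nonneg, ← Finset.sum_sub_distrib, ← Finset.sum_subset hFJ]
    · have : ∑ i ∈ F, (σ - b i) * τ = 0 := by
        rw [← Finset.sum_mul, Finset.sum_sub_distrib, hsum]; simp
      rw [← this]
      refine Finset.sum_le_sum fun i hi => ?_
      have h1 : a₁ i = σ := by simp [ha₁, top, hi]
      rw [h1]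
      by_cases h2 : i ∈ E
      · have : top E τ w i = τ := by simp [top, h2]
        rw [this]; linarith
      · have h3 := hhigh i hi h2
        have h4 := (top_bounds hτ hw E i).2
        nlinarith
    · intro i _ hi
      simp [ha₁, top, hi]
  -- move the top from `E` to `D`
  set a₀ := top E 0 a₁ with ha₀
  have ha₀b : ∀ i, 0 ≤ a₀ i ∧ a₀ i ≤ σ := fun i => by
    simp only [ha₀, top]
    split_ifs with h1
    · exact ⟨le_rfl, hσ⟩
    · exact ha₁b i
  have ha₁eq : top E σ a₀ = a₁ := by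
    funext i
    by_cases h1 : i ∈ E
    · simp [ha₁, top, h1, hEF h1]
    · simp [ha₀, top, h1]
  have hB₂ : S.Bd (top D σ a₀) 1 := by
    refine S.Bd_swap a₀ σ E D hDE.symm hD hσ ha₀b (fun i hi => by simp [ha₀, top, hi]) ?_
    rw [ha₁eq]; exact hB₁
  have ha₀J : ∀ i ∉ J₁, a₀ i = 0 := fun i hi => by
    have h1 : i ∉ E := fun h => hi (hEJ h)
    have h2 : i ∉ F := fun h => hi (hFJ h)
    have := hbJ i hi
    simp only [ha₀, ha₁, top, h1, h2, if_false]
    exact this
  have e4 := h ((J₁ \ E) ∪ D) (top D σ a₀) (fun i => (top_bounds hσ ha₀b D i).1) (fun i hi => by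
    simp only [Finset.mem_union, Finset.mem_sdiff, not_or, not_and, not_not] at hi
    simp only [top, hi.2, if_false]
    by_cases h1 : i ∈ J₁
    · simp [ha₀, top, hi.1 h1]
    · exact ha₀J i h1) hB₂
  have hdisj : Disjoint (J₁ \ E) D := by
    rw [Finset.disjoint_left]
    intro i hi
    exact (Finset.mem_sdiff.1 (Finset.mem_sdiff.1 hi).1).2
  have e5 : ∑ i ∈ J₁, a₁ i * top E τ w i =
      ∑ i ∈ (J₁ \ E) ∪ D, top D σ a₀ i * top D τ w i := by
    rw [Finset.sum_union hdisj, ← Finset.sum_sdiff hEJ]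
    congr 1
    · refine Finset.sum_congr rfl fun i hi => ?_
      have h1 := (Finset.mem_sdiff.1 hi).2
      have h2 : i ∉ D := Finset.disjoint_left.1 hdisj hi
      simp [ha₀, top, h1, h2]
    · rw [Finset.sum_congr rfl (g := fun _ => σ * τ) (fun i hi => by simp [ha₁, top, hi, hEF hi]),
        Finset.sum_congr rfl (s₂ := D) (g := fun _ => σ * τ) (fun i hi => by simp [top, hi])]
      simp [hDE]
  rw [e1]
  exact e3.trans (e5 ▸ e4)

theorem Bd_greedy {M : ℝ} (u v : ι → ℝ) (hu : ∀ i, 0 ≤ u i) (hv : ∀ i, 0 ≤ v i) (A B : Finset ι)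
    (hA : ∀ n ∈ A, ∀ k ∉ A, u k ≤ u n) (hB : B.card ≤ A.card) (huv : ∀ i ∉ B, v i = u i)
    (hQ : S.Bd v M) : S.Bd (top A 0 u) M :=
  greedy_of_swap (fun u => S.Bd u M) (fun _ _ _ h => S.Bd_mono h)
    (fun w τ D E _ h2 h3 h4 h5 h6 _ => S.Bd_swap w τ D E h2 h3 h4 h5 h6) u v hu hv A B hA hB huv hQ

theorem DBd_greedy {M : ℝ} (u v : ι → ℝ) (hu : ∀ i, 0 ≤ u i) (hv : ∀ i, 0 ≤ v i) (A B : Finset ι)
    (hA : ∀ n ∈ A, ∀ k ∉ A, u k ≤ u n) (hB : B.card ≤ A.card) (huv : ∀ i ∉ B, v i = u i)
    (hQ : S.DBd v M) : S.DBd (top A 0 u) M :=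
  greedy_of_swap (fun u => S.DBd u M) (fun _ _ _ h => S.DBd_mono h)
    (fun w τ D E h1 h2 h3 h4 h5 h6 _ => S.DBd_swap w τ D E h1 h2 h3 h4 h5 h6)
    u v hu hv A B hA hB huv hQ

end Setup

end Pool.Agent.P.MP_f77f75_an
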